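import Pool.Agent.Work.MP_9ad55e_co.Tiling

set_option autoImplicit false

namespace Pool.Agent.Work.MP_9ad55e_co

open MeasureTheory Set Filter
open scoped ENNReal Topology

/-- The covering. -/
def CC : Set (Set E) := {K | ∃ (i : Fin 12) (m n : ℤ), K = cell i m n}

/-- The counting function. -/
noncomputable def cnt (C : Set (Set E)) (r : ℝ) : ℝ≥0∞ :=
  ((({K ∈ C | K ⊆ Metric.closedBall (0 : E) r}.encard : ℕ∞) : ℝ≥0∞)) /
    volume (Metric.closedBall (0 : E) r)

lemma vol_ball {r : ℝ} (hr : 0 ≤ r) : volume (Metric.closedBall (0 : E) r) =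
    ENNReal.ofReal (Real.pi * r ^ 2) := by
  rw [EuclideanSpace.volume_closedBall_fin_two, ENNReal.ofReal_mul Real.pi_pos.le,
    ENNReal.ofReal_pow hr, mul_comm]

/-- Half open fundamental rectangles. -/
def rect (m n : ℤ) : Set E :=
  {z | z 0 ∈ Set.Ico ((1244 * m : ℝ) / 500) ((1244 * (m + 1) : ℝ) / 500) ∧
    z 1 ∈ Set.Ico ((1582 * n : ℝ) / 500) ((1582 * (n + 1) : ℝ) / 500)}

lemma volume_rect (m n : ℤ) : volume (rect m n) = ENNReal.ofReal (1244 / 500 * (1582 / 500)) := by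
  unfold rect
  rw [volume_prod_set, Real.volume_Ico, Real.volume_Ico, ← ENNReal.ofReal_mul]
  · congr 1
    ring
  · have : (1244 * (m + 1) : ℝ) / 500 - 1244 * m / 500 = 1244 / 500 := by ring
    rw [this]; norm_num

lemma measurable_rect (m n : ℤ) : MeasurableSet (rect m n) :=
  (cont0.measurable measurableSet_Ico).inter (cont1.measurable measurableSet_Ico)

lemma floor_unique {x c : ℝ} {m n : ℤ} (hc : 0 < c) (h1 : x ∈ Set.Ico ((c * m : ℝ) / 500) ((c * (m + 1) : ℝ) / 500))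
    (h2 : x ∈ Set.Ico ((c * n : ℝ) / 500) ((c * (n + 1) : ℝ) / 500)) : m = n := by
  obtain ⟨a1, a2⟩ := h1
  obtain ⟨b1, b2⟩ := h2
  have h3 : (m : ℝ) < n + 1 := by
    have : c * m < c * (n + 1) := by linarith
    exact lt_of_mul_lt_mul_left this hc.le
  have h4 : (n : ℝ) < m + 1 := by
    have : c * n < c * (m + 1) := by linarith
    exact lt_of_mul_lt_mul_left this hc.le
  have h5 : m < n + 1 := by exact_mod_cast h3
  have h6 : n < m + 1 := by exact_mod_cast h4
  omega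

/-- The set of lattice translates having a cell inside the ball. -/
def SS (r : ℝ) : Set (ℤ × ℤ) := {s | ∃ i : Fin 12, cell i s.1 s.2 ⊆ Metric.closedBall (0 : E) r}

lemma V_bound : ∀ i : Fin 12, ∃ v ∈ V i, |v.1| ≤ 1500 ∧ |v.2| ≤ 1800 := by decide

lemma rect_sub {r : ℝ} {s : ℤ × ℤ} (hs : s ∈ SS r) :
    rect s.1 s.2 ⊆ Metric.closedBall (0 : E) (r + 20) := by
  obtain ⟨i, hi⟩ := hs
  obtain ⟨v, hv, h1, h2⟩ := V_bound i
  have hmem : emb s.1 s.2 v ∈ Metric.closedBall (0 : E) r :=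
    hi (subset_convexHull ℝ _ ⟨v, hv, rfl⟩)
  rw [mem_closedBall_zero_iff] at hmem
  rintro z ⟨⟨a1, a2⟩, ⟨b1, b2⟩⟩
  rw [mem_closedBall_zero_iff]
  have h1' : |(v.1 : ℝ)| ≤ 1500 := by exact_mod_cast h1
  have h2' : |(v.2 : ℝ)| ≤ 1800 := by exact_mod_cast h2
  rw [abs_le] at h1' h2'
  have hd : ‖z - emb s.1 s.2 v‖ ≤ 20 := by
    apply le_of_sq_le_sq _ (by norm_num)
    rw [norm_sq_eq]
    simp only [PiLp.sub_apply, emb]
    simp
    have c1 : |z 0 - ((v.1 : ℝ) + 1244 * s.1) / 500| ≤ 10 := by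
      rw [abs_le]; constructor <;> linarith
    have c2 : |z 1 - ((v.2 : ℝ) + 1582 * s.2) / 500| ≤ 10 := by
      rw [abs_le]; constructor <;> linarith
    have d1 := sq_le_sq' (neg_le_of_abs_le c1) (le_of_abs_le c1)
    have d2 := sq_le_sq' (neg_le_of_abs_le c2) (le_of_abs_le c2)
    linarith
  calc ‖z‖ = ‖(z - emb s.1 s.2 v) + emb s.1 s.2 v‖ := by congr 1; abel
    _ ≤ ‖z - emb s.1 s.2 v‖ + ‖emb s.1 s.2 v‖ := norm_add_le _ _
    _ ≤ r + 20 := by linarith

lemma SS_bound (r : ℝ) : ((SS r).encard : ℝ≥0∞) * ENNReal.ofReal (1244 / 500 * (1582 / 500)) ≤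
    volume (Metric.closedBall (0 : E) (r + 20)) := by
  have h1 : volume (⋃ s ∈ SS r, rect s.1 s.2) = ∑' s : SS r, volume (rect s.1.1 s.1.2) := by
    apply measure_biUnion (Set.to_countable _)
    · rintro ⟨m, n⟩ _ ⟨m', n'⟩ _ hne
      rw [Function.onFun, Set.disjoint_left]
      rintro z ⟨z1, z2⟩ ⟨z3, z4⟩
      apply hne
      simp only at z1 z2 z3 z4
      have e1 := floor_unique (by norm_num) z1 z3
      have e2 := floor_unique (by norm_num) z2 z4
      rw [e1, e2]
    · intro s _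
      exact measurable_rect _ _
  have h2 : ∑' s : SS r, volume (rect s.1.1 s.1.2) =
      ((SS r).encard : ℝ≥0∞) * ENNReal.ofReal (1244 / 500 * (1582 / 500)) := by
    simp only [volume_rect]
    exact ENNReal.tsum_set_const _ _
  rw [← h2, ← h1]
  apply measure_mono
  intro z hz
  simp only [Set.mem_iUnion] at hz
  obtain ⟨s, hs, hz⟩ := hz
  exact rect_sub hs hz

lemma count_CC (r : ℝ) : {K ∈ CC | K ⊆ Metric.closedBall (0 : E) r}.encard ≤ 12 * (SS r).encard := by
  have hsub : {K ∈ CC | K ⊆ Metric.closedBall (0 : E) r} ⊆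
      (fun t : Fin 12 × (ℤ × ℤ) => cell t.1 t.2.1 t.2.2) '' ((Set.univ : Set (Fin 12)) ×ˢ SS r) := by
    rintro K ⟨⟨i, m, n, rfl⟩, hK⟩
    exact ⟨(i, (m, n)), ⟨trivial, ⟨i, hK⟩⟩, rfl⟩
  refine (Set.encard_le_encard hsub).trans ((Set.encard_image_le _ _).trans ?_)
  rw [Set.encard_prod]
  apply le_of_eq
  congr 1
  simp

lemma cnt_CC_le {r : ℝ} (hr : 0 < r) : cnt CC r ≤
    ENNReal.ofReal (12 * (r + 20) ^ 2 / (r ^ 2 * (1244 / 500 * (1582 / 500)))) := by
  have hab : (0:ℝ) < 1244 / 500 * (1582 / 500) := by norm_num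
  have h1 := count_CC r
  have h2 := SS_bound r
  rw [vol_ball (by linarith)] at h2
  have h3 : ((SS r).encard : ℝ≥0∞) ≤ ENNReal.ofReal (Real.pi * (r + 20) ^ 2 / (1244 / 500 * (1582 / 500))) := by
    rw [ENNReal.ofReal_div_of_pos hab]
    rw [ENNReal.le_div_iff_mul_le]
    · exact h2
    · left; exact (ENNReal.ofReal_pos.2 hab).ne'
    · left; exact ENNReal.ofReal_ne_top
  have h4 : (({K ∈ CC | K ⊆ Metric.closedBall (0 : E) r}.encard : ℕ∞) : ℝ≥0∞) ≤
      ENNReal.ofReal (12 * (Real.pi * (r + 20) ^ 2 / (1244 / 500 * (1582 / 500)))) := by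
    calc (({K ∈ CC | K ⊆ Metric.closedBall (0 : E) r}.encard : ℕ∞) : ℝ≥0∞)
        ≤ ((12 * (SS r).encard : ℕ∞) : ℝ≥0∞) := by exact_mod_cast h1
      _ = 12 * ((SS r).encard : ℝ≥0∞) := by push_cast; rfl
      _ ≤ 12 * ENNReal.ofReal (Real.pi * (r + 20) ^ 2 / (1244 / 500 * (1582 / 500))) := by gcongr
      _ = _ := by
        rw [ENNReal.ofReal_mul (by norm_num)]
        simp
  unfold cnt
  rw [vol_ball hr.le]
  calc _ ≤ ENNReal.ofReal (12 * (Real.pi * (r + 20) ^ 2 / (1244 / 500 * (1582 / 500)))) /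
        ENNReal.ofReal (Real.pi * r ^ 2) := by gcongr
    _ = _ := by
      rw [← ENNReal.ofReal_div_of_pos (by positivity)]
      congr 1
      field_simp

lemma tendsto_aux (a b : ℝ) : Tendsto (fun r : ℝ => a * (r + b) ^ 2 / r ^ 2) atTop (𝓝 a) := by
  have h1 : Tendsto (fun r : ℝ => a * (1 + b * r⁻¹) ^ 2) atTop (𝓝 (a * (1 + b * 0) ^ 2)) := by
    apply Tendsto.const_mul
    apply Tendsto.pow
    apply Tendsto.const_add
    apply Tendsto.const_mul
    exact tendsto_inv_atTop_zero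
  have h2 : a * (1 + b * 0) ^ 2 = a := by ring
  rw [h2] at h1
  apply h1.congr'
  filter_upwards [eventually_gt_atTop 0] with r hr
  field_simp

lemma liminf_CC : liminf (cnt CC) atTop ≤ ENNReal.ofReal (12 / (1244 / 500 * (1582 / 500))) := by
  have h1 : Tendsto (fun r : ℝ => ENNReal.ofReal
      (12 * (r + 20) ^ 2 / (r ^ 2 * (1244 / 500 * (1582 / 500))))) atTop
      (𝓝 (ENNReal.ofReal (12 / (1244 / 500 * (1582 / 500))))) := by
    apply ENNReal.tendsto_ofReal
    have := tendsto_aux (12 / (1244 / 500 * (1582 / 500))) 20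
    apply this.congr'
    filter_upwards [eventually_gt_atTop 0] with r hr
    field_simp
  rw [← h1.liminf_eq]
  refine liminf_le_liminf ?_
  filter_upwards [eventually_gt_atTop 0] with r hr
  exact cnt_CC_le hr

/-- Lower bound for coverings by discs. -/
lemma cnt_balls_ge {B : Set (Set E)} (hB : ∀ S ∈ B, ∃ x : E, S = Metric.closedBall x (1/2 : ℝ))
    (hcov : ⋃₀ B = Set.univ) {r : ℝ} (hr : 2 ≤ r) :
    ENNReal.ofReal (8 / (3 * √3) * (r + (-2)) ^ 2 / r ^ 2) ≤ cnt B r := by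
  classical
  unfold cnt
  by_cases hfin : {S ∈ B | S ⊆ Metric.closedBall (0 : E) r}.Finite
  · let c : Set E → E := fun S => if h : ∃ x : E, S = Metric.closedBall x (1/2 : ℝ) then h.choose else 0
    have hc : ∀ S ∈ B, S = Metric.closedBall (c S) (1/2 : ℝ) := by
      intro S hS
      have h := hB S hS
      simp only [c, h, dif_pos]
      exact h.choose_spec
    let P : Finset E := hfin.toFinset.image c
    have hP : Cov P (r - 1) := by
      intro y hy
      have hyu : y ∈ ⋃₀ B := by rw [hcov]; trivial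
      obtain ⟨S, hS, hyS⟩ := hyu
      have hSc := hc S hS
      have hyc : ‖y - c S‖ ≤ 1 / 2 := by
        rw [hSc, Metric.mem_closedBall, dist_eq_norm] at hyS
        exact hyS
      have hSr : S ⊆ Metric.closedBall (0 : E) r := by
        intro z hz
        rw [hSc, Metric.mem_closedBall, dist_eq_norm] at hz
        rw [mem_closedBall_zero_iff]
        calc ‖z‖ = ‖(z - c S) - (y - c S) + y‖ := by congr 1; abel
          _ ≤ ‖(z - c S) - (y - c S)‖ + ‖y‖ := norm_add_le _ _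
          _ ≤ ‖z - c S‖ + ‖y - c S‖ + ‖y‖ := by gcongr; exact norm_sub_le _ _
          _ ≤ r := by linarith
      refine ⟨c S, ?_, ?_⟩
      · simp only [P, Finset.mem_image, Set.Finite.mem_toFinset]
        exact ⟨S, ⟨hS, hSr⟩, rfl⟩
      · rw [norm_sub_rev]; exact hyc
    have hk := kershner (P := P) (R := r - 1) (by linarith) hP
    have hcard : (P.card : ℝ≥0∞) ≤ (({S ∈ B | S ⊆ Metric.closedBall (0 : E) r}.encard : ℕ∞) : ℝ≥0∞) := by
      rw [hfin.encard_eq_coe_toFinset_card]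
      have : P.card ≤ hfin.toFinset.card := Finset.card_image_le
      exact_mod_cast this
    rw [vol_ball (by linarith)]
    calc ENNReal.ofReal (8 / (3 * √3) * (r + (-2)) ^ 2 / r ^ 2)
        = ENNReal.ofReal (8 / (3 * √3) * (Real.pi * (r - 1 - 1) ^ 2)) / ENNReal.ofReal (Real.pi * r ^ 2) := by
          rw [← ENNReal.ofReal_div_of_pos (by positivity)]
          congr 1
          have : (0:ℝ) < r := by linarith
          have h3 : 0 < √3 := by positivity
          field_simp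
          ring
      _ ≤ ENNReal.ofReal P.card / ENNReal.ofReal (Real.pi * r ^ 2) := by gcongr
      _ = (P.card : ℝ≥0∞) / ENNReal.ofReal (Real.pi * r ^ 2) := by rw [ENNReal.ofReal_natCast]
      _ ≤ _ := by gcongr
  · have hinf : {S ∈ B | S ⊆ Metric.closedBall (0 : E) r}.encard = ⊤ :=
      Set.encard_eq_top_iff.2 hfin
    rw [hinf, vol_ball (by linarith)]
    have : ((⊤ : ℕ∞) : ℝ≥0∞) = ⊤ := rfl
    rw [this, ENNReal.top_div_of_ne_top ENNReal.ofReal_ne_top]
    exact le_top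

lemma liminf_balls {B : Set (Set E)} (hB : ∀ S ∈ B, ∃ x : E, S = Metric.closedBall x (1/2 : ℝ))
    (hcov : ⋃₀ B = Set.univ) : ENNReal.ofReal (8 / (3 * √3)) ≤ liminf (cnt B) atTop := by
  have h1 : Tendsto (fun r : ℝ => ENNReal.ofReal (8 / (3 * √3) * (r + (-2)) ^ 2 / r ^ 2)) atTop
      (𝓝 (ENNReal.ofReal (8 / (3 * √3)))) :=
    ENNReal.tendsto_ofReal (tendsto_aux _ _)
  rw [← h1.liminf_eq]
  refine liminf_le_liminf ?_
  filter_upwards [eventually_ge_atTop 2] with r hr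
  exact cnt_balls_ge hB hcov hr

lemma numeric : ENNReal.ofReal (12 / (1244 / 500 * (1582 / 500))) < ENNReal.ofReal (8 / (3 * √3)) := by
  rw [ENNReal.ofReal_lt_ofReal_iff (by positivity)]
  have h3 : √3 < 1.733 := by
    rw [Real.sqrt_lt' (by norm_num)]
    norm_num
  have h4 : 0 < √3 := by positivity
  rw [div_lt_div_iff₀ (by norm_num) (by positivity)]
  nlinarith

end Pool.Agent.Work.MP_9ad55e_co
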