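import Mathlib
import Pool.Agent.Work.MP_9ad55e_co.Final

/-!
# Supplements for the hand-in `TwelveCells` of MP_9ad55e_co

The hexagonal lattice covering by discs of diameter `1` has lower number per unit area at most
`8 / (3 √3)`; the covering by twelve polygons per period counted by members that meet a ball with
arbitrary centre; the lower bound for families of discs with an arbitrary centre.
-/

set_option autoImplicit false

open MeasureTheory Filter Set
open scoped ENNReal Topology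

noncomputable section

namespace Pool.Agent.Work.MP_9ad55e_co.Hex

/-! ### The hexagonal lattice covering -/

/-- Centres of the discs of the hexagonal lattice covering. -/
def hc (i j : ℤ) : E := !₂[√3 / 2 * ((i : ℝ) + (j : ℝ) / 2), 3 / 4 * (j : ℝ)]

/-- The hexagonal lattice covering. -/
def HH : Set (Set E) := {S | ∃ i j : ℤ, S = Metric.closedBall (hc i j) (1 / 2)}

lemma sq3 : √3 * √3 = 3 := Real.mul_self_sqrt (by norm_num)

lemma ineq {u t : ℝ} (hu0 : 0 ≤ u) (hu1 : u ≤ √3 / 4) (ht0 : 0 ≤ t) (ht1 : t ≤ 3 / 4)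
    (h : 1 / 4 ≤ u ^ 2 + t ^ 2) : (√3 / 4 - u) ^ 2 + (3 / 4 - t) ^ 2 ≤ 1 / 4 := by
  have h3 : √3 * √3 = 3 := sq3
  have h30 : 0 ≤ √3 := Real.sqrt_nonneg 3
  have key : 1 / 2 ≤ u * (√3 / 2 - u) + t * (3 / 2 - t) := by
    rcases le_total (1 / 2) t with ht | ht
    · have h1 : 0 ≤ u * (√3 / 2 - u) := mul_nonneg hu0 (by linarith)
      nlinarith
    · have hu2 : u ^ 2 ≤ 3 / 16 := by nlinarith
      have ht2 : 1 / 4 ≤ t := by nlinarith
      set k : ℝ := √3 / 2 * (1 - 2 * t) with hk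
      have hk0 : 0 ≤ k := mul_nonneg (by positivity) (by linarith)
      have hk2 : k ^ 2 = 3 / 4 * (1 - 2 * t) ^ 2 := by
        rw [hk]; ring_nf; rw [show √3 ^ 2 = 3 by rw [sq]; exact h3]; ring
      have huk : k ≤ u := by
        refine le_of_sq_le_sq ?_ hu0
        rw [hk2]
        nlinarith
      have hkk : k * (√3 / 2 - k) = 3 / 2 * t * (1 - 2 * t) := by
        have : k * (√3 / 2 - k) = √3 * √3 / 4 * (1 - 2 * t) - k ^ 2 := by rw [hk]; ring
        rw [this, hk2, h3]; ring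
      have hmono : k * (√3 / 2 - k) ≤ u * (√3 / 2 - u) := by nlinarith
      nlinarith
  nlinarith

lemma cover_hex (x : E) : ∃ i j : ℤ, ‖x - hc i j‖ ≤ 1 / 2 := by
  have h3 : √3 * √3 = 3 := sq3
  have h30 : 0 < √3 := Real.sqrt_pos.2 (by norm_num)
  set j : ℤ := ⌊x 1 / (3 / 4)⌋ with hj
  set t : ℝ := x 1 - 3 / 4 * (j : ℝ) with ht
  have hj1 : (j : ℝ) ≤ x 1 / (3 / 4) := Int.floor_le _
  have hj2 : x 1 / (3 / 4) < j + 1 := Int.lt_floor_add_one _
  have ht0 : 0 ≤ t := by rw [ht]; linarith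
  have ht1 : t ≤ 3 / 4 := by rw [ht]; linarith
  set w : ℝ := x 0 - √3 / 4 * (j : ℝ) with hw
  set i : ℤ := round (w / (√3 / 2)) with hi
  set u : ℝ := w - √3 / 2 * (i : ℝ) with hu
  have habs : |u| ≤ √3 / 4 := by
    have h1 := abs_sub_round (w / (√3 / 2))
    have h2 : u = √3 / 2 * (w / (√3 / 2) - (i : ℝ)) := by
      rw [hu]; field_simp
    rw [h2, abs_mul, abs_of_pos (by positivity : (0 : ℝ) < √3 / 2)]
    have h4 : √3 / 2 * |w / (√3 / 2) - (i : ℝ)| ≤ √3 / 2 * (1 / 2) := by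
      gcongr
    linarith
  by_cases hc1 : u ^ 2 + t ^ 2 ≤ 1 / 4
  · refine ⟨i, j, ?_⟩
    refine le_of_sq_le_sq ?_ (by norm_num)
    rw [norm_sq_eq]
    have e0 : (x - hc i j) 0 = u := by
      simp only [PiLp.sub_apply, hc]
      simp
      rw [hu, hw]; ring
    have e1 : (x - hc i j) 1 = t := by
      simp only [PiLp.sub_apply, hc]
      simp
      rw [ht]
    rw [e0, e1]
    linarith
  · push Not at hc1
    have hmain := ineq (abs_nonneg u) habs ht0 ht1 (by rw [sq_abs]; exact hc1.le)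
    rcases le_total 0 u with hs | hs
    · refine ⟨i, j + 1, ?_⟩
      refine le_of_sq_le_sq ?_ (by norm_num)
      rw [norm_sq_eq]
      have e0 : (x - hc i (j + 1)) 0 = -(√3 / 4 - |u|) := by
        simp only [PiLp.sub_apply, hc]
        simp
        rw [abs_of_nonneg hs, hu, hw]; ring
      have e1 : (x - hc i (j + 1)) 1 = -(3 / 4 - t) := by
        simp only [PiLp.sub_apply, hc]
        simp
        rw [ht]; ring
      rw [e0, e1]
      linarith
    · refine ⟨i - 1, j + 1, ?_⟩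
      refine le_of_sq_le_sq ?_ (by norm_num)
      rw [norm_sq_eq]
      have e0 : (x - hc (i - 1) (j + 1)) 0 = √3 / 4 - |u| := by
        simp only [PiLp.sub_apply, hc]
        simp
        rw [abs_of_nonpos hs, hu, hw]; ring
      have e1 : (x - hc (i - 1) (j + 1)) 1 = -(3 / 4 - t) := by
        simp only [PiLp.sub_apply, hc]
        simp
        rw [ht]; ring
      rw [e0, e1]
      linarith

/-- Half open fundamental rectangles of the hexagonal lattice. -/
def hrect (i j : ℤ) : Set E :=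
  {z | z 0 ∈ Set.Ico (√3 / 2 * ((i : ℝ) + (j : ℝ) / 2)) (√3 / 2 * ((i : ℝ) + (j : ℝ) / 2 + 1)) ∧
    z 1 ∈ Set.Ico (3 / 4 * (j : ℝ)) (3 / 4 * ((j : ℝ) + 1))}

lemma volume_hrect (i j : ℤ) : volume (hrect i j) = ENNReal.ofReal (√3 / 2 * (3 / 4)) := by
  unfold hrect
  rw [volume_prod_set, Real.volume_Ico, Real.volume_Ico, ← ENNReal.ofReal_mul]
  · congr 1
    ring
  · have : √3 / 2 * ((i : ℝ) + (j : ℝ) / 2 + 1) - √3 / 2 * ((i : ℝ) + (j : ℝ) / 2) = √3 / 2 := by
      ring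
    rw [this]; positivity

lemma measurable_hrect (i j : ℤ) : MeasurableSet (hrect i j) :=
  (cont0.measurable measurableSet_Ico).inter (cont1.measurable measurableSet_Ico)

lemma hrect_disj {i j i' j' : ℤ} {z : E} (h1 : z ∈ hrect i j) (h2 : z ∈ hrect i' j') :
    i = i' ∧ j = j' := by
  obtain ⟨⟨a1, a2⟩, ⟨a3, a4⟩⟩ := h1
  obtain ⟨⟨b1, b2⟩, ⟨b3, b4⟩⟩ := h2
  have h30 : 0 < √3 / 2 := by positivity
  have e1 : (j : ℝ) < j' + 1 := by linarith
  have e2 : (j' : ℝ) < j + 1 := by linarith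
  have e3 : j = j' := by
    have e1' : j < j' + 1 := by exact_mod_cast e1
    have e2' : j' < j + 1 := by exact_mod_cast e2
    omega
  subst e3
  have e4 : (i : ℝ) + (j : ℝ) / 2 < (i' : ℝ) + (j : ℝ) / 2 + 1 :=
    lt_of_mul_lt_mul_left (lt_of_le_of_lt a1 b2) h30.le
  have e5 : (i' : ℝ) + (j : ℝ) / 2 < (i : ℝ) + (j : ℝ) / 2 + 1 :=
    lt_of_mul_lt_mul_left (lt_of_le_of_lt b1 a2) h30.le
  have e6 : i < i' + 1 := by
    have : (i : ℝ) < i' + 1 := by linarith
    exact_mod_cast this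
  have e7 : i' < i + 1 := by
    have : (i' : ℝ) < i + 1 := by linarith
    exact_mod_cast this
  exact ⟨by omega, rfl⟩

/-- The lattice points whose disc lies in the ball. -/
def HS (r : ℝ) : Set (ℤ × ℤ) :=
  {s | Metric.closedBall (hc s.1 s.2) (1 / 2) ⊆ Metric.closedBall (0 : E) r}

lemma hrect_sub {r : ℝ} {s : ℤ × ℤ} (hs : s ∈ HS r) :
    hrect s.1 s.2 ⊆ Metric.closedBall (0 : E) (r + 2) := by
  have hmem : hc s.1 s.2 ∈ Metric.closedBall (0 : E) r :=
    hs (Metric.mem_closedBall_self (by norm_num))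
  rw [mem_closedBall_zero_iff] at hmem
  rintro z ⟨⟨a1, a2⟩, ⟨b1, b2⟩⟩
  rw [mem_closedBall_zero_iff]
  have h3 : √3 ≤ 2 := by
    rw [Real.sqrt_le_left (by norm_num)]
    norm_num
  have hd : ‖z - hc s.1 s.2‖ ≤ 2 := by
    apply le_of_sq_le_sq _ (by norm_num)
    rw [norm_sq_eq]
    simp only [PiLp.sub_apply, hc]
    simp
    have c1 : |z 0 - √3 / 2 * ((s.1 : ℝ) + (s.2 : ℝ) / 2)| ≤ 1 := by
      rw [abs_le]; constructor <;> linarith
    have c2 : |z 1 - 3 / 4 * (s.2 : ℝ)| ≤ 1 := by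
      rw [abs_le]; constructor <;> linarith
    have d1 := sq_le_sq' (neg_le_of_abs_le c1) (le_of_abs_le c1)
    have d2 := sq_le_sq' (neg_le_of_abs_le c2) (le_of_abs_le c2)
    linarith
  calc ‖z‖ = ‖(z - hc s.1 s.2) + hc s.1 s.2‖ := by congr 1; abel
    _ ≤ ‖z - hc s.1 s.2‖ + ‖hc s.1 s.2‖ := norm_add_le _ _
    _ ≤ r + 2 := by linarith

lemma HS_bound (r : ℝ) : ((HS r).encard : ℝ≥0∞) * ENNReal.ofReal (√3 / 2 * (3 / 4)) ≤
    volume (Metric.closedBall (0 : E) (r + 2)) := by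
  have h1 : volume (⋃ s ∈ HS r, hrect s.1 s.2) = ∑' s : HS r, volume (hrect s.1.1 s.1.2) := by
    apply measure_biUnion (Set.to_countable _)
    · rintro ⟨m, n⟩ _ ⟨m', n'⟩ _ hne
      rw [Function.onFun, Set.disjoint_left]
      intro z z1 z2
      apply hne
      obtain ⟨e1, e2⟩ := hrect_disj z1 z2
      simp only at e1 e2
      rw [e1, e2]
    · intro s _
      exact measurable_hrect _ _
  have h2 : ∑' s : HS r, volume (hrect s.1.1 s.1.2) =
      ((HS r).encard : ℝ≥0∞) * ENNReal.ofReal (√3 / 2 * (3 / 4)) := by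
    simp only [volume_hrect]
    exact ENNReal.tsum_set_const _ _
  rw [← h2, ← h1]
  apply measure_mono
  intro z hz
  simp only [Set.mem_iUnion] at hz
  obtain ⟨s, hs, hz⟩ := hz
  exact hrect_sub hs hz

lemma count_HH (r : ℝ) : {K ∈ HH | K ⊆ Metric.closedBall (0 : E) r}.encard ≤ (HS r).encard := by
  have hsub : {K ∈ HH | K ⊆ Metric.closedBall (0 : E) r} ⊆
      (fun t : ℤ × ℤ => Metric.closedBall (hc t.1 t.2) (1 / 2)) '' HS r := by
    rintro K ⟨⟨i, j, rfl⟩, hK⟩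
    exact ⟨(i, j), hK, rfl⟩
  exact (Set.encard_le_encard hsub).trans (Set.encard_image_le _ _)

lemma cnt_HH_le {r : ℝ} (hr : 0 < r) :
    cnt HH r ≤ ENNReal.ofReal (8 / (3 * √3) * (r + 2) ^ 2 / r ^ 2) := by
  have h30 : 0 < √3 := Real.sqrt_pos.2 (by norm_num)
  have hab : (0:ℝ) < √3 / 2 * (3 / 4) := by positivity
  have h1 := count_HH r
  have h2 := HS_bound r
  rw [vol_ball (by linarith)] at h2
  have h3 : ((HS r).encard : ℝ≥0∞) ≤ ENNReal.ofReal (Real.pi * (r + 2) ^ 2 / (√3 / 2 * (3 / 4))) := by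
    rw [ENNReal.ofReal_div_of_pos hab]
    rw [ENNReal.le_div_iff_mul_le]
    · exact h2
    · left; exact (ENNReal.ofReal_pos.2 hab).ne'
    · left; exact ENNReal.ofReal_ne_top
  have h4 : (({K ∈ HH | K ⊆ Metric.closedBall (0 : E) r}.encard : ℕ∞) : ℝ≥0∞) ≤
      ENNReal.ofReal (Real.pi * (r + 2) ^ 2 / (√3 / 2 * (3 / 4))) := by
    refine le_trans ?_ h3
    exact_mod_cast h1
  unfold cnt
  rw [vol_ball hr.le]
  calc _ ≤ ENNReal.ofReal (Real.pi * (r + 2) ^ 2 / (√3 / 2 * (3 / 4))) /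
        ENNReal.ofReal (Real.pi * r ^ 2) := by gcongr
    _ = _ := by
      rw [← ENNReal.ofReal_div_of_pos (by positivity)]
      congr 1
      field_simp
      ring

lemma liminf_HH : liminf (cnt HH) atTop ≤ ENNReal.ofReal (8 / (3 * √3)) := by
  have h1 : Tendsto (fun r : ℝ => ENNReal.ofReal (8 / (3 * √3) * (r + 2) ^ 2 / r ^ 2)) atTop
      (𝓝 (ENNReal.ofReal (8 / (3 * √3)))) :=
    ENNReal.tendsto_ofReal (tendsto_aux _ _)
  rw [← h1.liminf_eq]
  refine liminf_le_liminf ?_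
  filter_upwards [eventually_gt_atTop 0] with r hr
  exact cnt_HH_le hr

lemma HH_cov : (∀ K ∈ HH, ∃ x : E, K = Metric.closedBall x (1 / 2)) ∧ ⋃₀ HH = Set.univ := by
  refine ⟨?_, ?_⟩
  · rintro K ⟨i, j, rfl⟩
    exact ⟨_, rfl⟩
  · rw [Set.sUnion_eq_univ_iff]
    intro x
    obtain ⟨i, j, h⟩ := cover_hex x
    refine ⟨_, ⟨i, j, rfl⟩, ?_⟩
    rw [Metric.mem_closedBall, dist_eq_norm]
    exact h

/-! ### The covering by twelve convex polygons per period -/

lemma CC_cov : (∀ K ∈ CC, IsCompact K ∧ Convex ℝ K ∧ (interior K).Nonempty ∧ Metric.diam K ≤ 1) ∧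
    ⋃₀ CC = Set.univ := by
  refine ⟨?_, ?_⟩
  · rintro K ⟨i, m, n, rfl⟩
    exact ⟨cell_compact i m n, convex_convexHull ℝ _, cell_interior i m n, cell_diam i m n⟩
  · rw [Set.sUnion_eq_univ_iff]
    intro x
    obtain ⟨i, m, n, hx⟩ := cover_plane x
    exact ⟨_, ⟨i, m, n, rfl⟩, hx⟩

lemma count_meet (x : E) (r : ℝ) :
    {K ∈ CC | (K ∩ Metric.closedBall x r).Nonempty}.encard ≤ 12 * (SS (r + 1 + ‖x‖)).encard := by
  refine le_trans (Set.encard_le_encard ?_) (count_CC (r + 1 + ‖x‖))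
  rintro K ⟨hK, ⟨y, hyK, hyr⟩⟩
  refine ⟨hK, ?_⟩
  intro z hz
  have hKK := CC_cov.1 K hK
  have hd : dist z y ≤ 1 := (Metric.dist_le_diam_of_mem hKK.1.isBounded hz hyK).trans hKK.2.2.2
  rw [Metric.mem_closedBall, dist_eq_norm] at hyr
  rw [dist_eq_norm] at hd
  rw [mem_closedBall_zero_iff]
  calc ‖z‖ = ‖(z - y) + (y - x) + x‖ := by congr 1; abel
    _ ≤ ‖(z - y) + (y - x)‖ + ‖x‖ := norm_add_le _ _
    _ ≤ ‖z - y‖ + ‖y - x‖ + ‖x‖ := by gcongr; exact norm_add_le _ _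
    _ ≤ r + 1 + ‖x‖ := by linarith

lemma meet_le (x : E) {r : ℝ} (hr : 0 < r) :
    (({K ∈ CC | (K ∩ Metric.closedBall x r).Nonempty}.encard : ℕ∞) : ℝ≥0∞) /
      volume (Metric.closedBall x r) ≤
    ENNReal.ofReal (375000 / 246001 * (r + (21 + ‖x‖)) ^ 2 / r ^ 2) := by
  have hab : (0:ℝ) < 1244 / 500 * (1582 / 500) := by norm_num
  have hx0 : 0 ≤ ‖x‖ := norm_nonneg x
  have h1 := count_meet x r
  have h2 := SS_bound (r + 1 + ‖x‖)
  rw [vol_ball (by linarith)] at h2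
  have h3 : ((SS (r + 1 + ‖x‖)).encard : ℝ≥0∞) ≤
      ENNReal.ofReal (Real.pi * (r + 1 + ‖x‖ + 20) ^ 2 / (1244 / 500 * (1582 / 500))) := by
    rw [ENNReal.ofReal_div_of_pos hab]
    rw [ENNReal.le_div_iff_mul_le]
    · exact h2
    · left; exact (ENNReal.ofReal_pos.2 hab).ne'
    · left; exact ENNReal.ofReal_ne_top
  have h4 : (({K ∈ CC | (K ∩ Metric.closedBall x r).Nonempty}.encard : ℕ∞) : ℝ≥0∞) ≤
      ENNReal.ofReal (12 * (Real.pi * (r + 1 + ‖x‖ + 20) ^ 2 / (1244 / 500 * (1582 / 500)))) := by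
    calc (({K ∈ CC | (K ∩ Metric.closedBall x r).Nonempty}.encard : ℕ∞) : ℝ≥0∞)
        ≤ ((12 * (SS (r + 1 + ‖x‖)).encard : ℕ∞) : ℝ≥0∞) := by exact_mod_cast h1
      _ = 12 * ((SS (r + 1 + ‖x‖)).encard : ℝ≥0∞) := by push_cast; rfl
      _ ≤ 12 * ENNReal.ofReal (Real.pi * (r + 1 + ‖x‖ + 20) ^ 2 /
          (1244 / 500 * (1582 / 500))) := by gcongr
      _ = _ := by
        rw [ENNReal.ofReal_mul (by norm_num)]
        simp
  rw [Measure.addHaar_closedBall_center, vol_ball hr.le]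
  calc _ ≤ ENNReal.ofReal (12 * (Real.pi * (r + 1 + ‖x‖ + 20) ^ 2 /
          (1244 / 500 * (1582 / 500)))) / ENNReal.ofReal (Real.pi * r ^ 2) := by gcongr
    _ = _ := by
      rw [← ENNReal.ofReal_div_of_pos (by positivity)]
      congr 1
      have hpi := Real.pi_pos
      field_simp
      ring

lemma limsup_meet (x : E) :
    limsup (fun r : ℝ => (({K ∈ CC | (K ∩ Metric.closedBall x r).Nonempty}.encard : ℕ∞) : ℝ≥0∞) /
      volume (Metric.closedBall x r)) atTop ≤ ENNReal.ofReal (375000 / 246001) := by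
  have h1 : Tendsto (fun r : ℝ => ENNReal.ofReal
      (375000 / 246001 * (r + (21 + ‖x‖)) ^ 2 / r ^ 2)) atTop
      (𝓝 (ENNReal.ofReal (375000 / 246001))) :=
    ENNReal.tendsto_ofReal (tendsto_aux _ _)
  rw [← h1.limsup_eq]
  refine limsup_le_limsup ?_
  filter_upwards [eventually_gt_atTop 0] with r hr
  exact meet_le x hr

lemma numeric2 : (375000 / 246001 : ℝ) < 8 / (3 * √3) := by
  have h3 : √3 < 1.733 := by
    rw [Real.sqrt_lt' (by norm_num)]
    norm_num
  have h4 : 0 < √3 := by positivity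
  rw [div_lt_div_iff₀ (by norm_num) (by positivity)]
  nlinarith

/-! ### Families of discs, with repetitions, arbitrary centre -/

universe u

lemma family_ge {ι : Type u} (c : ι → E) (hcov : (⋃ i, Metric.closedBall (c i) (1 / 2)) = Set.univ)
    (x : E) : ENNReal.ofReal (8 / (3 * √3)) ≤
      liminf (fun r : ℝ =>
        (({i | Metric.closedBall (c i) (1 / 2) ⊆ Metric.closedBall x r}.encard : ℕ∞) : ℝ≥0∞) /
          volume (Metric.closedBall x r)) atTop := by
  set B : Set (Set E) := {S | ∃ i, S = Metric.closedBall (c i - x) (1 / 2)} with hB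
  have hB1 : ∀ S ∈ B, ∃ y : E, S = Metric.closedBall y (1 / 2 : ℝ) := by
    rintro S ⟨i, rfl⟩
    exact ⟨_, rfl⟩
  have hB2 : ⋃₀ B = Set.univ := by
    rw [Set.sUnion_eq_univ_iff]
    intro y
    have hy : y + x ∈ ⋃ i, Metric.closedBall (c i) (1 / 2) := by rw [hcov]; trivial
    rw [Set.mem_iUnion] at hy
    obtain ⟨i, hi⟩ := hy
    refine ⟨_, ⟨i, rfl⟩, ?_⟩
    rw [Metric.mem_closedBall, dist_eq_norm] at hi ⊢
    have : y - (c i - x) = y + x - c i := by abel
    rw [this]; exact hi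
  refine (liminf_balls hB1 hB2).trans (liminf_le_liminf (Eventually.of_forall fun r => ?_))
  have hle : {S ∈ B | S ⊆ Metric.closedBall (0 : E) r}.encard ≤
      {i | Metric.closedBall (c i) (1 / 2) ⊆ Metric.closedBall x r}.encard := by
    have hsub : {S ∈ B | S ⊆ Metric.closedBall (0 : E) r} ⊆
        (fun i => Metric.closedBall (c i - x) (1 / 2)) ''
          {i | Metric.closedBall (c i) (1 / 2) ⊆ Metric.closedBall x r} := by
      rintro S ⟨⟨i, rfl⟩, hS⟩
      refine ⟨i, ?_, rfl⟩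
      intro z hz
      have hz' : z - x ∈ Metric.closedBall (c i - x) (1 / 2) := by
        rw [Metric.mem_closedBall, dist_eq_norm] at hz ⊢
        have : z - x - (c i - x) = z - c i := by abel
        rw [this]; exact hz
      have := hS hz'
      rw [mem_closedBall_zero_iff] at this
      rw [Metric.mem_closedBall, dist_eq_norm]
      exact this
    exact (Set.encard_le_encard hsub).trans (Set.encard_image_le _ _)
  show cnt B r ≤ _
  unfold cnt
  rw [Measure.addHaar_closedBall_center volume x r]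
  gcongr

end Pool.Agent.Work.MP_9ad55e_co.Hex
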