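import Mathlib

set_option autoImplicit false

namespace Pool.Agent.Work.MP_9ad55e_co

open MeasureTheory Set
open scoped ENNReal

/-- The Euclidean plane. -/
abbrev E := EuclideanSpace ℝ (Fin 2)

/-- Planar cross product. -/
def cr (u v : E) : ℝ := u 0 * v 1 - u 1 * v 0

/-- Twice the signed area of the triangle `a b c`. -/
def orient (a b c : E) : ℝ := cr (b - a) (c - a)

lemma ext2 {x y : E} (h0 : x 0 = y 0) (h1 : x 1 = y 1) : x = y := by
  ext i
  fin_cases i
  · exact h0
  · exact h1

lemma orient_rot (a b c : E) : orient b c a = orient a b c := by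
  simp only [orient, cr, PiLp.sub_apply]
  ring

lemma orient_rot' (a b c : E) : orient c a b = orient a b c := by
  simp only [orient, cr, PiLp.sub_apply]
  ring

lemma orient_swap (a b c : E) : orient a c b = - orient a b c := by
  simp only [orient, cr, PiLp.sub_apply]
  ring

/-- The filled triangle with vertices `a b c`. -/
def tri (a b c : E) : Set E :=
  {x | ∃ l m n : ℝ, 0 ≤ l ∧ 0 ≤ m ∧ 0 ≤ n ∧ l + m + n = 1 ∧ x = l • a + m • b + n • c}

lemma tri_rot (a b c : E) : tri b c a = tri a b c := by
  ext x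
  constructor
  · rintro ⟨l, m, n, hl, hm, hn, h1, h2⟩
    exact ⟨n, l, m, hn, hl, hm, by linarith, by rw [h2]; abel⟩
  · rintro ⟨l, m, n, hl, hm, hn, h1, h2⟩
    exact ⟨m, n, l, hm, hn, hl, by linarith, by rw [h2]; abel⟩

/-- Volume of a product set. -/
lemma volume_prod_set (I J : Set ℝ) :
    volume {z : E | z 0 ∈ I ∧ z 1 ∈ J} = volume I * volume J := by
  have h1 : {z : E | z 0 ∈ I ∧ z 1 ∈ J} =
      (MeasurableEquiv.toLp 2 (Fin 2 → ℝ)).symm ⁻¹' (Set.pi Set.univ ![I, J]) := by
    ext z
    simp [Set.mem_pi, Fin.forall_fin_two]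
  rw [h1, (EuclideanSpace.volume_preserving_symm_measurableEquiv_toLp (Fin 2)).measure_preimage_equiv,
    volume_pi_pi]
  simp

/-- Standard triangle. -/
def T0 : Set E := {z | 0 ≤ z 0 ∧ 0 ≤ z 1 ∧ z 0 + z 1 ≤ 1}

lemma cont0 : Continuous fun z : E => z 0 := by fun_prop

lemma cont1 : Continuous fun z : E => z 1 := by fun_prop

lemma measurable_T0 : MeasurableSet T0 := by
  apply IsClosed.measurableSet
  apply IsClosed.inter (isClosed_le continuous_const cont0)
  apply IsClosed.inter (isClosed_le continuous_const cont1)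
  exact isClosed_le (cont0.add cont1) continuous_const

/-- A line in the plane is null. -/
lemma volume_line (p q r : ℝ) (h : p ≠ 0 ∨ q ≠ 0) :
    volume {z : E | p * z 0 + q * z 1 = r} = 0 := by
  -- find a point on it
  obtain ⟨z0, hz0⟩ : ∃ z0 : E, p * z0 0 + q * z0 1 = r := by
    rcases h with h | h
    · exact ⟨!₂[r / p, 0], by simp; field_simp⟩
    · exact ⟨!₂[0, r / q], by simp; field_simp⟩
  let f : E →ₗ[ℝ] ℝ :=
    { toFun := fun z => p * z 0 + q * z 1
      map_add' := by intro x y; simp; ring
      map_smul' := by intro c x; simp; ring }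
  let S : AffineSubspace ℝ E := AffineSubspace.mk' z0 (LinearMap.ker f)
  have hS : S ≠ ⊤ := by
    intro htop
    have h1 : S.direction = ⊤ := by rw [htop]; simp
    have h2 : LinearMap.ker f = ⊤ := by
      simpa [S] using h1
    have h3 : ∀ z, f z = 0 := by
      intro z
      have : z ∈ LinearMap.ker f := by rw [h2]; trivial
      simpa using this
    have e0 := h3 (!₂[1, 0])
    have e1 := h3 (!₂[0, 1])
    simp [f] at e0 e1
    rcases h with h | h
    · exact h e0
    · exact h e1
  have hz := Measure.addHaar_affineSubspace (volume : Measure E) S hS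
  refine measure_mono_null ?_ hz
  intro z hzz
  simp only [Set.mem_ofPred_eq] at hzz
  simp only [S, SetLike.mem_coe, AffineSubspace.mem_mk', LinearMap.mem_ker]
  show p * (z - z0) 0 + q * (z - z0) 1 = 0
  simp only [PiLp.sub_apply]
  linarith

lemma volume_T0_le : volume T0 ≤ ENNReal.ofReal (1 / 2) := by
  let Q : Set E := {z | z 0 ∈ Set.Icc (0:ℝ) 1 ∧ z 1 ∈ Set.Icc (0:ℝ) 1}
  have hQ : volume Q = 1 := by
    rw [volume_prod_set]
    simp
  let one : E := !₂[1, 1]
  let T1 : Set E := (fun z => one - z) ⁻¹' T0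
  have hT1 : volume T1 = volume T0 := by
    have : MeasurePreserving (fun z : E => one - z) volume volume :=
      Measure.measurePreserving_sub_left volume one
    exact this.measure_preimage measurable_T0.nullMeasurableSet
  have hsub : T0 ∪ T1 ⊆ Q := by
    rintro z (⟨h0, h1, h2⟩ | ⟨h0, h1, h2⟩)
    · exact ⟨⟨h0, by linarith⟩, ⟨h1, by linarith⟩⟩
    · simp [one] at h0 h1 h2
      exact ⟨⟨by linarith, by linarith⟩, ⟨by linarith, by linarith⟩⟩
  have hdisj : volume (T0 ∩ T1) = 0 := by
    refine measure_mono_null ?_ (volume_line 1 1 1 (Or.inl one_ne_zero))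
    rintro z ⟨⟨h0, h1, h2⟩, ⟨h3, h4, h5⟩⟩
    simp [one] at h3 h4 h5
    simp only [Set.mem_ofPred_eq]
    linarith
  have hsum : volume (T0 ∪ T1) = volume T0 + volume T1 := by
    have hm1 : MeasurableSet T1 := by
      apply measurable_T0.preimage
      exact (continuous_const.sub continuous_id).measurable
    exact measure_union₀ hm1.nullMeasurableSet hdisj
  have h2 : volume T0 + volume T0 ≤ 1 := by
    calc volume T0 + volume T0 = volume T0 + volume T1 := by rw [hT1]
      _ = volume (T0 ∪ T1) := hsum.symm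
      _ ≤ volume Q := measure_mono hsub
      _ = 1 := hQ
  have h3 : 2 * volume T0 ≤ 1 := by rw [two_mul]; exact h2
  have h4 : ENNReal.ofReal (1/2) = 1 / 2 := by
    rw [ENNReal.ofReal_div_of_pos (by norm_num)]
    simp
  rw [h4, ENNReal.le_div_iff_mul_le (by simp) (by simp), mul_comm]
  exact h3

/-- Volume of a triangle is at most half of the determinant. -/
lemma volume_tri_le (a b c : E) (h : 0 < orient a b c) :
    volume (tri a b c) ≤ ENNReal.ofReal (orient a b c / 2) := by
  let bs : Module.Basis (Fin 2) ℝ E := (EuclideanSpace.basisFun (Fin 2) ℝ).toBasis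
  let M : Matrix (Fin 2) (Fin 2) ℝ := !![(b - a) 0, (c - a) 0; (b - a) 1, (c - a) 1]
  let L : E →ₗ[ℝ] E := Matrix.toLin bs bs M
  have hdet : LinearMap.det L = orient a b c := by
    rw [LinearMap.det_toLin]
    simp [M, Matrix.det_fin_two, orient, cr]
    ring
  have hL0 : ∀ z, (L z) 0 = (b - a) 0 * z 0 + (c - a) 0 * z 1 := by
    intro z
    simp [L, bs, M, Matrix.toLin_apply, Matrix.mulVec, dotProduct, Fin.sum_univ_two]
  have hL1 : ∀ z, (L z) 1 = (b - a) 1 * z 0 + (c - a) 1 * z 1 := by
    intro z
    simp [L, bs, M, Matrix.toLin_apply, Matrix.mulVec, dotProduct, Fin.sum_univ_two]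
  have hsub : tri a b c ⊆ (fun z => a + z) '' (L '' T0) := by
    rintro x ⟨l, m, n, hl, hm, hn, h1, rfl⟩
    refine ⟨L (!₂[m, n]), ⟨!₂[m, n], ⟨by simpa using hm, by simpa using hn, by simp; linarith⟩, rfl⟩, ?_⟩
    apply ext2
    · simp only [PiLp.add_apply, PiLp.smul_apply, smul_eq_mul, hL0, PiLp.sub_apply]
      simp
      have : l = 1 - m - n := by linarith
      rw [this]; ring
    · simp only [PiLp.add_apply, PiLp.smul_apply, smul_eq_mul, hL1, PiLp.sub_apply]
      simp
      have : l = 1 - m - n := by linarith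
      rw [this]; ring
  calc volume (tri a b c) ≤ volume ((fun z => a + z) '' (L '' T0)) := measure_mono hsub
    _ = volume (L '' T0) := by
        rw [Set.image_add_left, measure_preimage_add]
    _ = ENNReal.ofReal |LinearMap.det L| * volume T0 := Measure.addHaar_image_linearMap _ _ _
    _ ≤ ENNReal.ofReal (orient a b c) * ENNReal.ofReal (1 / 2) := by
        rw [hdet, abs_of_pos h]
        gcongr
        exact volume_T0_le
    _ = ENNReal.ofReal (orient a b c / 2) := by
        rw [← ENNReal.ofReal_mul h.le]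
        congr 1
        ring

end Pool.Agent.Work.MP_9ad55e_co
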