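import Pool.Agent.Work.MP_9ad55e_co.Height

set_option autoImplicit false

namespace Pool.Agent.Work.MP_9ad55e_co

open MeasureTheory Set
open scoped ENNReal

/-- An affine function. -/
def lin (α β κ : ℝ) (y : E) : ℝ := α * y 0 + β * y 1 + κ

/-- A positively oriented triangle whose lifted plane lies below all lifted points. -/
def Del (h : E → ℝ) (P : Finset E) (a b c : E) : Prop :=
  0 < orient a b c ∧ ∃ α β κ : ℝ, lin α β κ a = h a ∧ lin α β κ b = h b ∧ lin α β κ c = h c ∧
    ∀ q ∈ P, lin α β κ q ≤ h q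

/-- Genericity of heights. -/
def Gen (h : E → ℝ) (P : Finset E) : Prop :=
  ∀ a ∈ P, ∀ b ∈ P, ∀ c ∈ P, ∀ q ∈ P, 0 < orient a b c → q ≠ a → q ≠ b → q ≠ c →
    orient a b c * h q ≠ orient q b c * h a + orient a q c * h b + orient a b q * h c

lemma Del.rot {h : E → ℝ} {P : Finset E} {a b c : E} (H : Del h P a b c) : Del h P b c a := by
  obtain ⟨h1, α, β, κ, ha, hb, hc, hq⟩ := H
  exact ⟨by rw [orient_rot]; exact h1, α, β, κ, hb, hc, ha, hq⟩

lemma Del.rot' {h : E → ℝ} {P : Finset E} {a b c : E} (H : Del h P a b c) : Del h P c a b :=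
  H.rot.rot

/-- The cone of the triangle at its first vertex. -/
def cone (a b c : E) : Set E := {v | 0 ≤ cr (b - a) v ∧ 0 ≤ cr v (c - a)}

lemma isClosed_cone (a b c : E) : IsClosed (cone a b c) := by
  have h1 : Continuous fun v : E => cr (b - a) v := by
    unfold cr
    fun_prop
  have h2 : Continuous fun v : E => cr v (c - a) := by
    unfold cr
    fun_prop
  exact (isClosed_le continuous_const h1).inter (isClosed_le continuous_const h2)

lemma measurable_coneBall (a b c : E) : MeasurableSet (cone a b c ∩ Metric.ball 0 1) :=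
  (isClosed_cone a b c).measurableSet.inter measurableSet_ball

lemma ball_sub (a b c : E) : Metric.ball (0:E) 1 ⊆
    ((cone a b c ∩ Metric.ball 0 1) ∪ (cone b c a ∩ Metric.ball 0 1) ∪ (cone c a b ∩ Metric.ball 0 1))
    ∪ (Neg.neg ⁻¹' (cone a b c ∩ Metric.ball 0 1) ∪ Neg.neg ⁻¹' (cone b c a ∩ Metric.ball 0 1)
      ∪ Neg.neg ⁻¹' (cone c a b ∩ Metric.ball 0 1)) := by
  intro z hz
  have hz' : -z ∈ Metric.ball (0:E) 1 := by
    rw [mem_ball_zero_iff] at hz ⊢
    rwa [norm_neg]
  simp only [Set.mem_union, Set.mem_inter_iff, Set.mem_preimage, hz, hz', and_true]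
  simp only [cone, cr, Set.mem_ofPred_eq, PiLp.sub_apply, PiLp.neg_apply]
  set p := (b 0 - a 0) * z 1 - (b 1 - a 1) * z 0 with hp
  set q := (c 0 - b 0) * z 1 - (c 1 - b 1) * z 0 with hq
  have hr : (a 0 - c 0) * z 1 - (a 1 - c 1) * z 0 = -p - q := by rw [hp, hq]; ring
  rcases le_total 0 p with h1 | h1 <;> rcases le_total 0 q with h2 | h2 <;>
    rcases le_total 0 (-p - q) with h3 | h3
  · left; left; right; constructor <;> linarith
  · left; left; right; constructor <;> linarith
  · left; left; left; constructor <;> linarith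
  · right; right; constructor <;> linarith
  · left; right; constructor <;> linarith
  · right; left; left; constructor <;> linarith
  · right; left; right; constructor <;> linarith
  · right; left; right; constructor <;> linarith

lemma vol_ball_le (a b c : E) : volume (Metric.ball (0:E) 1) ≤
    2 * (volume (cone a b c ∩ Metric.ball 0 1) + volume (cone b c a ∩ Metric.ball 0 1)
      + volume (cone c a b ∩ Metric.ball 0 1)) := by
  have hneg : ∀ s : Set E, volume (Neg.neg ⁻¹' s) = volume s := fun s =>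
    Measure.measure_preimage_neg volume s
  calc volume (Metric.ball (0:E) 1) ≤ _ := measure_mono (ball_sub a b c)
    _ ≤ _ := measure_union_le _ _
    _ ≤ (volume (cone a b c ∩ Metric.ball 0 1) + volume (cone b c a ∩ Metric.ball 0 1)
      + volume (cone c a b ∩ Metric.ball 0 1)) + (volume (cone a b c ∩ Metric.ball 0 1) + volume (cone b c a ∩ Metric.ball 0 1)
      + volume (cone c a b ∩ Metric.ball 0 1)) := by
        gcongr
        · refine (measure_union_le _ _).trans ?_
          gcongr
          exact measure_union_le _ _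
        · refine (measure_union_le _ _).trans ?_
          rw [hneg]
          gcongr
          refine (measure_union_le _ _).trans ?_
          rw [hneg, hneg]
    _ = _ := by rw [two_mul]

lemma lin_interp (α β κ : ℝ) (a b c q : E) : orient a b c * lin α β κ q =
    orient q b c * lin α β κ a + orient a q c * lin α β κ b + orient a b q * lin α β κ c := by
  simp only [orient, cr, lin, PiLp.sub_apply]
  ring

/-- Cones of different triangles at the same vertex overlap in a null set. -/
lemma cone_disj {h : E → ℝ} {P : Finset E} (hG : Gen h P) {a b c b' c' : E}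
    (ha : a ∈ P) (hb : b ∈ P) (hc : c ∈ P) (hb' : b' ∈ P) (hc' : c' ∈ P)
    (H : Del h P a b c) (H' : Del h P a b' c') (hne : ¬ (b = b' ∧ c = c')) :
    volume (cone a b c ∩ cone a b' c') = 0 := by
  obtain ⟨hD, α, β, κ, la, lb, lc, lq⟩ := H
  obtain ⟨hD', α', β', κ', la', lb', lc', lq'⟩ := H'
  by_cases hαβ : α - α' ≠ 0 ∨ β - β' ≠ 0
  · refine measure_mono_null ?_ (volume_line (α - α') (β - β') 0 hαβ)
    rintro v ⟨⟨h1, h2⟩, ⟨h3, h4⟩⟩
    simp only [Set.mem_ofPred_eq]
    apply le_antisymm
    · -- from the second triangle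
      have gb : 0 ≤ h b' - lin α β κ b' := by have := lq b' hb'; linarith
      have gc : 0 ≤ h c' - lin α β κ c' := by have := lq c' hc'; linarith
      have e : orient a b' c' * ((α - α') * v 0 + (β - β') * v 1)
          = - (cr v (c' - a) * (h b' - lin α β κ b')) - cr (b' - a) v * (h c' - lin α β κ c') := by
        rw [← lb', ← lc']
        have e1 : lin α β κ a = lin α' β' κ' a := by rw [la, la']
        simp only [orient, cr, lin, PiLp.sub_apply] at e1 ⊢
        linear_combination (cr v (c' - a) + cr (b' - a) v) * e1 * 0 + ((b' 0 - a 0) * v 1 - (b' 1 - a 1) * v 0 + (v 0 * (c' 1 - a 1) - v 1 * (c' 0 - a 0))) * (-e1)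
      have : orient a b' c' * ((α - α') * v 0 + (β - β') * v 1) ≤ 0 := by
        rw [e]
        have := mul_nonneg h4 gb
        have := mul_nonneg h3 gc
        linarith
      by_contra hcon
      push Not at hcon
      have := mul_pos hD' hcon
      linarith
    · have gb : 0 ≤ h b - lin α' β' κ' b := by have := lq' b hb; linarith
      have gc : 0 ≤ h c - lin α' β' κ' c := by have := lq' c hc; linarith
      have e : orient a b c * ((α - α') * v 0 + (β - β') * v 1)
          = (cr v (c - a) * (h b - lin α' β' κ' b)) + cr (b - a) v * (h c - lin α' β' κ' c) := by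
        rw [← lb, ← lc]
        have e1 : lin α β κ a = lin α' β' κ' a := by rw [la, la']
        simp only [orient, cr, lin, PiLp.sub_apply] at e1 ⊢
        linear_combination ((b 0 - a 0) * v 1 - (b 1 - a 1) * v 0 + (v 0 * (c 1 - a 1) - v 1 * (c 0 - a 0))) * (-e1)
      have : 0 ≤ orient a b c * ((α - α') * v 0 + (β - β') * v 1) := by
        rw [e]
        have := mul_nonneg h2 gb
        have := mul_nonneg h1 gc
        linarith
      by_contra hcon
      push Not at hcon
      have := mul_neg_of_pos_of_neg hD hcon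
      linarith
  · exfalso
    push Not at hαβ
    have eα : α = α' := by linarith [hαβ.1]
    have eβ : β = β' := by linarith [hαβ.2]
    subst eα
    subst eβ
    have eκ : κ = κ' := by
      rw [← la'] at la
      simp only [lin] at la
      linarith
    subst eκ
    have key : ∀ q ∈ P, lin α β κ q = h q → q = a ∨ q = b ∨ q = c := by
      intro q hq hlq
      by_contra hcon
      push Not at hcon
      apply hG a ha b hb c hc q hq hD hcon.1 hcon.2.1 hcon.2.2
      rw [← hlq, ← la, ← lb, ← lc]
      exact lin_interp α β κ a b c q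
    have hb'a : b' ≠ a := by
      rintro rfl
      simp [orient, cr] at hD'
    have hc'a : c' ≠ a := by
      rintro rfl
      simp [orient, cr] at hD'
    have hbc' : b' ≠ c' := by
      rintro rfl
      simp only [orient, cr] at hD'
      linarith
    rcases key b' hb' lb' with h1 | h1 | h1
    · exact hb'a h1
    · rcases key c' hc' lc' with h2 | h2 | h2
      · exact hc'a h2
      · exact hbc' (h1.trans h2.symm)
      · exact hne ⟨h1.symm, h2.symm⟩
    · rcases key c' hc' lc' with h2 | h2 | h2
      · exact hc'a h2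
      · rw [h1, h2, orient_swap] at hD'
        linarith
      · exact hbc' (h1.trans h2.symm)

open Classical in
/-- All Delaunay triangles, as ordered triples. -/
noncomputable def TT (h : E → ℝ) (P : Finset E) : Finset (E × E × E) :=
  (P ×ˢ P ×ˢ P).filter (fun t => Del h P t.1 t.2.1 t.2.2)

lemma mem_TT {h : E → ℝ} {P : Finset E} {t : E × E × E} : t ∈ TT h P ↔
    (t.1 ∈ P ∧ t.2.1 ∈ P ∧ t.2.2 ∈ P) ∧ Del h P t.1 t.2.1 t.2.2 := by
  simp [TT]

/-- There are at most `6 |P|` ordered Delaunay triangles. -/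
lemma card_TT_le {h : E → ℝ} {P : Finset E} (hG : Gen h P) : (TT h P).card ≤ 6 * P.card := by
  classical
  set B := volume (Metric.ball (0:E) 1) with hB
  have hB0 : B ≠ 0 := (Metric.measure_ball_pos volume (0:E) one_pos).ne'
  have hBt : B ≠ ⊤ := measure_ball_lt_top.ne
  let f : E × E × E → ℝ≥0∞ := fun t => volume (cone t.1 t.2.1 t.2.2 ∩ Metric.ball 0 1)
  -- the sum of the cones
  have h1 : ∑ t ∈ TT h P, f t ≤ P.card * B := by
    have hmaps : ∀ t ∈ TT h P, t.1 ∈ P := fun t ht => (mem_TT.1 ht).1.1
    rw [← Finset.sum_fiberwise_of_maps_to hmaps, ← nsmul_eq_mul]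
    apply Finset.sum_le_card_nsmul
    intro a _
    have hdis : ((TT h P).filter (fun t => t.1 = a) : Set (E × E × E)).Pairwise
        (Function.onFun (AEDisjoint volume) (fun t : E × E × E => cone t.1 t.2.1 t.2.2 ∩ Metric.ball 0 1)) := by
      rintro ⟨a1, b1, c1⟩ ht1 ⟨a2, b2, c2⟩ ht2 hne
      simp only [Finset.coe_filter, Set.mem_ofPred_eq, mem_TT] at ht1 ht2
      obtain ⟨⟨⟨h1a, h1b, h1c⟩, hd1⟩, e1⟩ := ht1
      obtain ⟨⟨⟨h2a, h2b, h2c⟩, hd2⟩, e2⟩ := ht2
      subst e1
      subst e2
      have := cone_disj hG h1a h1b h1c h2b h2c hd1 hd2 (by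
        rintro ⟨rfl, rfl⟩
        exact hne rfl)
      simp only [Function.onFun, AEDisjoint]
      refine measure_mono_null ?_ this
      rintro z ⟨⟨hz1, _⟩, ⟨hz2, _⟩⟩
      exact ⟨hz1, hz2⟩
    calc ∑ t ∈ (TT h P).filter (fun t => t.1 = a), f t
        = volume (⋃ t ∈ (TT h P).filter (fun t => t.1 = a), (cone t.1 t.2.1 t.2.2 ∩ Metric.ball 0 1)) := by
          rw [measure_biUnion_finset₀ hdis]
          intro t _
          exact (measurable_coneBall _ _ _).nullMeasurableSet
      _ ≤ B := by
          apply measure_mono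
          intro z hz
          simp only [Set.mem_iUnion] at hz
          obtain ⟨t, _, hz⟩ := hz
          exact hz.2
  have h2 : ∑ t ∈ TT h P, f (t.2.1, t.2.2, t.1) = ∑ t ∈ TT h P, f t := by
    apply Finset.sum_nbij' (fun t => (t.2.1, t.2.2, t.1)) (fun t => (t.2.2, t.1, t.2.1))
    · intro t ht
      rw [mem_TT] at ht ⊢
      exact ⟨⟨ht.1.2.1, ht.1.2.2, ht.1.1⟩, ht.2.rot⟩
    · intro t ht
      rw [mem_TT] at ht ⊢
      exact ⟨⟨ht.1.2.2, ht.1.1, ht.1.2.1⟩, ht.2.rot'⟩
    · intro t _; rfl
    · intro t _; rfl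
    · intro t _; rfl
  have h3 : ∑ t ∈ TT h P, f (t.2.2, t.1, t.2.1) = ∑ t ∈ TT h P, f t := by
    apply Finset.sum_nbij' (fun t => (t.2.2, t.1, t.2.1)) (fun t => (t.2.1, t.2.2, t.1))
    · intro t ht
      rw [mem_TT] at ht ⊢
      exact ⟨⟨ht.1.2.2, ht.1.1, ht.1.2.1⟩, ht.2.rot'⟩
    · intro t ht
      rw [mem_TT] at ht ⊢
      exact ⟨⟨ht.1.2.1, ht.1.2.2, ht.1.1⟩, ht.2.rot⟩
    · intro t _; rfl
    · intro t _; rfl
    · intro t _; rfl
  have h4 : (TT h P).card * B ≤ 6 * P.card * B := by
    calc (TT h P).card * B = ∑ t ∈ TT h P, B := by rw [Finset.sum_const, nsmul_eq_mul]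
      _ ≤ ∑ t ∈ TT h P, 2 * (f t + f (t.2.1, t.2.2, t.1) + f (t.2.2, t.1, t.2.1)) := by
          apply Finset.sum_le_sum
          intro t _
          exact vol_ball_le _ _ _
      _ = 2 * (3 * ∑ t ∈ TT h P, f t) := by
          rw [← Finset.mul_sum, Finset.sum_add_distrib, Finset.sum_add_distrib, h2, h3]
          ring
      _ ≤ 2 * (3 * (P.card * B)) := by gcongr
      _ = 6 * P.card * B := by ring
  have h5 : ((TT h P).card : ℝ≥0∞) ≤ 6 * P.card := by
    rwa [ENNReal.mul_le_mul_iff_left hB0 hBt] at h4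
  exact_mod_cast h5

end Pool.Agent.Work.MP_9ad55e_co
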