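import Pool.Agent.Work.MP_9ad55e_co.Ineq

set_option autoImplicit false

namespace Pool.Agent.Work.MP_9ad55e_co

open MeasureTheory Set
open scoped ENNReal

open Polynomial in
/-- Generic perturbation of the squared norm. -/
lemma exists_height (P : Finset E) (ε : ℝ) (hε : 0 < ε) :
    ∃ h : E → ℝ, (∀ p ∈ P, ‖p‖ ^ 2 ≤ h p ∧ h p ≤ ‖p‖ ^ 2 + ε) ∧
      ∀ a ∈ P, ∀ b ∈ P, ∀ c ∈ P, ∀ q ∈ P, 0 < orient a b c → q ≠ a → q ≠ b → q ≠ c →
        orient a b c * h q ≠ orient q b c * h a + orient a q c * h b + orient a b q * h c := by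
  classical
  obtain ⟨n, hn, hn1⟩ : ∃ n : E → ℕ, Set.InjOn n P ∧ ∀ p ∈ P, 1 ≤ n p := by
    refine ⟨fun p => if hp : p ∈ P then (P.equivFin ⟨p, hp⟩ : ℕ) + 1 else 0, ?_, ?_⟩
    · intro p hp q hq hpq
      have hp' : p ∈ P := hp
      have hq' : q ∈ P := hq
      simp only [hp', hq', dif_pos, Nat.add_right_cancel_iff] at hpq
      have := P.equivFin.injective (Fin.ext hpq)
      simpa using this
    · intro p hp
      simp [hp]
  let H : E → ℝ[X] := fun p => C (‖p‖ ^ 2) + C ε * X ^ (n p)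
  let F : E × E × E × E → ℝ[X] := fun t =>
    C (orient t.1 t.2.1 t.2.2.1) * H t.2.2.2
      - (C (orient t.2.2.2 t.2.1 t.2.2.1) * H t.1 + C (orient t.1 t.2.2.2 t.2.2.1) * H t.2.1
        + C (orient t.1 t.2.1 t.2.2.2) * H t.2.2.1)
  have hH : ∀ p t, (H p).eval t = ‖p‖ ^ 2 + ε * t ^ (n p) := by
    intro p t
    simp [H]
  let Z : Finset ℝ := (P ×ˢ P ×ˢ P ×ˢ P).biUnion fun t => (F t).roots.toFinset
  obtain ⟨t, ht, htZ⟩ : ∃ t ∈ Set.Ioo (0:ℝ) 1, t ∉ Z :=
    (Set.Ioo_infinite (show (0:ℝ) < 1 by norm_num)).exists_notMem_finset Z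
  refine ⟨fun p => ‖p‖ ^ 2 + ε * t ^ (n p), ?_, ?_⟩
  · intro p _
    have h1 : 0 ≤ t ^ (n p) := pow_nonneg ht.1.le _
    have h2 : t ^ (n p) ≤ 1 := pow_le_one₀ ht.1.le ht.2.le
    constructor
    · nlinarith
    · nlinarith
  · intro a ha b hb c hc q hq habc hqa hqb hqc heq
    apply htZ
    have hF : F (a, b, c, q) ≠ 0 := by
      intro h0
      have h1 : (F (a, b, c, q)).coeff (n q) = 0 := by rw [h0]; simp
      have hnq : n q ≠ 0 := by have := hn1 q hq; omega
      have ea : n q ≠ n a := fun h => hqa (hn hq ha h)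
      have eb : n q ≠ n b := fun h => hqb (hn hq hb h)
      have ec : n q ≠ n c := fun h => hqc (hn hq hc h)
      simp only [F, H, mul_add, coeff_sub, coeff_add, coeff_C_mul, coeff_C, coeff_X_pow, hnq,
        if_false, ea, eb, ec, if_true, mul_zero, mul_one, zero_add, sub_zero, add_zero] at h1
      rcases mul_eq_zero.1 h1 with h | h
      · exact habc.ne' h
      · exact hε.ne' h
    simp only [Z, Finset.mem_biUnion]
    refine ⟨(a, b, c, q), by simp [ha, hb, hc, hq], ?_⟩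
    rw [Multiset.mem_toFinset, mem_roots hF, IsRoot.def]
    simp only [F, eval_sub, eval_add, eval_mul, eval_C, hH]
    linarith

end Pool.Agent.Work.MP_9ad55e_co
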