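import Pool.Agent.Work.MP_9ad55e_co.Basic

set_option autoImplicit false

namespace Pool.Agent.Work.MP_9ad55e_co

open MeasureTheory Set
open scoped ENNReal

lemma norm_sq_eq (x : E) : ‖x‖ ^ 2 = x 0 ^ 2 + x 1 ^ 2 := by
  rw [EuclideanSpace.norm_sq_eq]
  simp [Fin.sum_univ_two]

/-- A triangle inscribed in a disc of radius `ρ` has area at most `3√3/4 ρ²`. -/
lemma orient_le (a b c o : E) (r : ℝ) (ha : ‖a - o‖ ^ 2 ≤ r) (hb : ‖b - o‖ ^ 2 ≤ r)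
    (hc : ‖c - o‖ ^ 2 ≤ r) : orient a b c ≤ 3 * √3 / 2 * r := by
  rw [norm_sq_eq] at ha hb hc
  simp only [PiLp.sub_apply] at ha hb hc
  have hs : 0 ≤ √3 := Real.sqrt_nonneg 3
  have hs2 : √3 ^ 2 = 3 := Real.sq_sqrt (by norm_num)
  set s := √3 with hsdef
  clear_value s
  simp only [orient, cr, PiLp.sub_apply]
  set a0 := a 0 - o 0 with ha0
  set a1 := a 1 - o 1 with ha1
  set b0 := b 0 - o 0 with hb0
  set b1 := b 1 - o 1 with hb1
  set c0 := c 0 - o 0 with hc0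
  set c1 := c 1 - o 1 with hc1
  have e1 : b 0 - a 0 = b0 - a0 := by rw [hb0, ha0]; ring
  have e2 : b 1 - a 1 = b1 - a1 := by rw [hb1, ha1]; ring
  have e3 : c 0 - a 0 = c0 - a0 := by rw [hc0, ha0]; ring
  have e4 : c 1 - a 1 = c1 - a1 := by rw [hc1, ha1]; ring
  rw [e1, e2, e3, e4]
  clear_value a0 a1 b0 b1 c0 c1
  clear ha0 ha1 hb0 hb1 hc0 hc1 e1 e2 e3 e4
  have key : s / 2 * ((a0^2+a1^2) + (b0^2+b1^2) + (c0^2+c1^2))
      - ((b0 - a0) * (c1 - a1) - (b1 - a1) * (c0 - a0))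
      = s / 6 * ((a0+b0+c0)^2 + (a1+b1+c1)^2)
        + s / 12 * ((2*a0 - b0 - c0 - s * (b1 - c1))^2 + (2*a1 - b1 - c1 + s * (b0 - c0))^2)
        + (3 - s^2) * (-((b0 - a0) * (c1 - a1) - (b1 - a1) * (c0 - a0)) / 3
            + s / 12 * ((b1-c1)^2 + (b0-c0)^2)) := by
    ring
  have h1 : 0 ≤ s / 6 * ((a0+b0+c0)^2 + (a1+b1+c1)^2) := by positivity
  have h2 : 0 ≤ s / 12 * ((2*a0 - b0 - c0 - s * (b1 - c1))^2 + (2*a1 - b1 - c1 + s * (b0 - c0))^2) := by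
    positivity
  have h3 : s / 2 * ((a0^2+a1^2) + (b0^2+b1^2) + (c0^2+c1^2)) ≤ s / 2 * (3 * r) := by
    apply mul_le_mul_of_nonneg_left _ (by positivity)
    linarith
  have h4 : (3 - s^2) = 0 := by linarith
  rw [h4, zero_mul] at key
  linarith

end Pool.Agent.Work.MP_9ad55e_co
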