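import Pool.Agent.Work.MP_9ad55e_co.Count

set_option autoImplicit false

namespace Pool.Agent.Work.MP_9ad55e_co

open MeasureTheory Set
open scoped ENNReal RealInnerProductSpace

/-- `x` is not on any line through two points of `P`, and not in `P`. -/
def GenPt (P : Finset E) (x : E) : Prop :=
  x ∉ P ∧ ∀ p ∈ P, ∀ q ∈ P, p ≠ q → orient p q x ≠ 0

/-- The triangle as intersection of half planes. -/
def triH (a b c : E) : Set E := {x | 0 ≤ orient x b c ∧ 0 ≤ orient a x c ∧ 0 ≤ orient a b x}

lemma isClosed_triH (a b c : E) : IsClosed (triH a b c) := by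
  have h1 : Continuous fun x : E => orient x b c := by
    simp only [orient, cr, PiLp.sub_apply]
    fun_prop
  have h2 : Continuous fun x : E => orient a x c := by
    simp only [orient, cr, PiLp.sub_apply]
    fun_prop
  have h3 : Continuous fun x : E => orient a b x := by
    simp only [orient, cr, PiLp.sub_apply]
    fun_prop
  exact (isClosed_le continuous_const h1).inter
    ((isClosed_le continuous_const h2).inter (isClosed_le continuous_const h3))

lemma triH_sub_tri (a b c : E) (h : 0 < orient a b c) : triH a b c ⊆ tri a b c := by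
  rintro x ⟨h1, h2, h3⟩
  refine ⟨orient x b c / orient a b c, orient a x c / orient a b c, orient a b x / orient a b c,
    by positivity, by positivity, by positivity, ?_, ?_⟩
  · have : orient x b c + orient a x c + orient a b x = orient a b c := by
      simp only [orient, cr, PiLp.sub_apply]; ring
    field_simp
    linarith
  · apply ext2
    · simp only [PiLp.add_apply, PiLp.smul_apply, smul_eq_mul]
      field_simp
      simp only [orient, cr, PiLp.sub_apply]; ring
    · simp only [PiLp.add_apply, PiLp.smul_apply, smul_eq_mul]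
      field_simp
      simp only [orient, cr, PiLp.sub_apply]; ring

lemma volume_triH_le (a b c : E) (h : 0 < orient a b c) :
    volume (triH a b c) ≤ ENNReal.ofReal (orient a b c / 2) :=
  (measure_mono (triH_sub_tri a b c h)).trans (volume_tri_le a b c h)

/-- The interpolated height at `x`. -/
noncomputable def val (h : E → ℝ) (x a b c : E) : ℝ :=
  (orient x b c * h a + orient a x c * h b + orient a b x * h c) / orient a b c

/-- Strict containment of `x` in a positive triangle. -/
def SIn (x a b c : E) : Prop :=
  0 < orient a b c ∧ 0 < orient x b c ∧ 0 < orient a x c ∧ 0 < orient a b x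

lemma SIn.rot {x a b c : E} (H : SIn x a b c) : SIn x b c a := by
  obtain ⟨h1, h2, h3, h4⟩ := H
  refine ⟨by rwa [orient_rot], ?_, ?_, ?_⟩
  · have : orient x c a = orient a x c := by simp only [orient, cr, PiLp.sub_apply]; ring
    rwa [this]
  · have : orient b x a = orient a b x := by simp only [orient, cr, PiLp.sub_apply]; ring
    rwa [this]
  · have : orient b c x = orient x b c := by simp only [orient, cr, PiLp.sub_apply]; ring
    rwa [this]

lemma val_rot (h : E → ℝ) (x a b c : E) : val h x b c a = val h x a b c := by
  unfold val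
  rw [orient_rot a b c]
  congr 1
  simp only [orient, cr, PiLp.sub_apply]; ring

lemma orient_ne {a b c : E} (h : 0 < orient a b c) : a ≠ b ∧ b ≠ c ∧ a ≠ c := by
  refine ⟨?_, ?_, ?_⟩
  · rintro rfl; simp [orient, cr] at h
  · rintro rfl; simp only [orient, cr] at h; linarith
  · rintro rfl; simp [orient, cr] at h

/-- The exchange step. -/
lemma exch {h : E → ℝ} {P : Finset E} {x a b c q : E} (hx : GenPt P x)
    (hb : b ∈ P) (hc : c ∈ P) (hq : q ∈ P) (H : SIn x a b c)
    (hlow : orient a b c * h q < orient q b c * h a + orient a q c * h b + orient a b q * h c)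
    (hA : 0 < orient q b c)
    (hB : orient x b c * orient a q c ≤ orient a x c * orient q b c)
    (hC : orient x b c * orient a b q ≤ orient a b x * orient q b c) :
    SIn x q b c ∧ val h x q b c < val h x a b c := by
  obtain ⟨hD, h1, h2, h3⟩ := H
  have i1 : orient a b c * orient q x c = orient q b c * orient a x c - orient a q c * orient x b c := by
    simp only [orient, cr, PiLp.sub_apply]; ring
  have i2 : orient a b c * orient q b x = orient q b c * orient a b x - orient a b q * orient x b c := by
    simp only [orient, cr, PiLp.sub_apply]; ring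
  have n := orient_ne hA
  have p1 : 0 < orient q x c := by
    have : 0 ≤ orient a b c * orient q x c := by rw [i1]; nlinarith
    have h0 : 0 ≤ orient q x c := nonneg_of_mul_nonneg_right this hD
    have h1 : orient q x c ≠ 0 := by
      have e : orient q x c = orient c q x := by simp only [orient, cr, PiLp.sub_apply]; ring
      rw [e]
      exact hx.2 c hc q hq n.2.2.symm
    exact lt_of_le_of_ne h0 h1.symm
  have p2 : 0 < orient q b x := by
    have : 0 ≤ orient a b c * orient q b x := by rw [i2]; nlinarith
    have h0 : 0 ≤ orient q b x := nonneg_of_mul_nonneg_right this hD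
    exact lt_of_le_of_ne h0 (hx.2 q hq b hb n.1).symm
  refine ⟨⟨hA, h1, p1, p2⟩, ?_⟩
  unfold val
  rw [div_lt_div_iff₀ hA hD]
  have key : (orient x b c * h a + orient a x c * h b + orient a b x * h c) * orient q b c
      - (orient x b c * h q + orient q x c * h b + orient q b x * h c) * orient a b c
      = orient x b c * (orient q b c * h a + orient a q c * h b + orient a b q * h c
          - orient a b c * h q) := by
    linear_combination (-(h b)) * i1 + (-(h c)) * i2
  have : 0 < orient x b c * (orient q b c * h a + orient a q c * h b + orient a b q * h c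
          - orient a b c * h q) := mul_pos h1 (by linarith)
  linarith

lemma three_cases (A B C l m n : ℝ) (h : 0 < A + B + C) (hl : 0 < l) (hm : 0 < m) (hn : 0 < n) :
    (0 < A ∧ l * B ≤ m * A ∧ l * C ≤ n * A) ∨ (0 < B ∧ m * C ≤ n * B ∧ m * A ≤ l * B) ∨
      (0 < C ∧ n * A ≤ l * C ∧ n * B ≤ m * C) := by
  -- compare A/l, B/m, C/n
  have hpos : 0 < A / l ∨ 0 < B / m ∨ 0 < C / n := by
    by_contra hcon
    push Not at hcon
    obtain ⟨h1, h2, h3⟩ := hcon
    rw [div_le_iff₀ hl] at h1
    rw [div_le_iff₀ hm] at h2
    rw [div_le_iff₀ hn] at h3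
    linarith
  rcases le_total (A / l) (B / m) with hab | hab
  · rcases le_total (B / m) (C / n) with hbc | hbc
    · right; right
      have hC : 0 < C / n := by
        rcases hpos with h | h | h <;> linarith
      have hac := hab.trans hbc
      rw [div_le_div_iff₀ hm hn] at hbc
      rw [div_le_div_iff₀ hl hn] at hac
      refine ⟨?_, by linarith, by linarith⟩
      have := (div_pos_iff_of_pos_right hn).1 hC
      exact this
    · right; left
      have hB : 0 < B / m := by
        rcases hpos with h | h | h <;> linarith
      rw [div_le_div_iff₀ hl hm] at hab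
      rw [div_le_div_iff₀ hn hm] at hbc
      refine ⟨(div_pos_iff_of_pos_right hm).1 hB, by linarith, by linarith⟩
  · rcases le_total (A / l) (C / n) with hac | hac
    · right; right
      have hC : 0 < C / n := by
        rcases hpos with h | h | h <;> linarith
      have hbc := hab.trans hac
      rw [div_le_div_iff₀ hl hn] at hac
      rw [div_le_div_iff₀ hm hn] at hbc
      exact ⟨(div_pos_iff_of_pos_right hn).1 hC, by linarith, by linarith⟩
    · left
      have hA : 0 < A / l := by
        rcases hpos with h | h | h <;> linarith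
      rw [div_le_div_iff₀ hm hl] at hab
      rw [div_le_div_iff₀ hn hl] at hac
      exact ⟨(div_pos_iff_of_pos_right hl).1 hA, by linarith, by linarith⟩

/-- Existence of a Delaunay triangle containing a generic point. -/
lemma exists_del {h : E → ℝ} {P : Finset E} {x : E} (hx : GenPt P x)
    (hne : ∃ a ∈ P, ∃ b ∈ P, ∃ c ∈ P, SIn x a b c) :
    ∃ a ∈ P, ∃ b ∈ P, ∃ c ∈ P, SIn x a b c ∧ Del h P a b c := by
  classical
  let S : Finset (E × E × E) := (P ×ˢ P ×ˢ P).filter (fun t => SIn x t.1 t.2.1 t.2.2)
  have hS : S.Nonempty := by
    obtain ⟨a, ha, b, hb, c, hc, H⟩ := hne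
    exact ⟨(a, b, c), by simp [S, ha, hb, hc, H]⟩
  obtain ⟨⟨a, b, c⟩, htS, hmin⟩ := Finset.exists_min_image S (fun t => val h x t.1 t.2.1 t.2.2) hS
  have hmem : ∀ a b c : E, (a, b, c) ∈ S ↔ (a ∈ P ∧ b ∈ P ∧ c ∈ P) ∧ SIn x a b c := by
    intro a b c
    simp [S]
  rw [hmem] at htS
  obtain ⟨⟨ha, hb, hc⟩, H⟩ := htS
  have hmin' : ∀ a' ∈ P, ∀ b' ∈ P, ∀ c' ∈ P, SIn x a' b' c' → val h x a b c ≤ val h x a' b' c' := by
    intro a' ha' b' hb' c' hc' H'
    exact hmin (a', b', c') ((hmem _ _ _).2 ⟨⟨ha', hb', hc'⟩, H'⟩)
  refine ⟨a, ha, b, hb, c, hc, H, H.1, ?_⟩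
  have hD := H.1
  set D := orient a b c with hDdef
  have hD0 : D ≠ 0 := hD.ne'
  refine ⟨((h b - h a) * (c 1 - a 1) - (h c - h a) * (b 1 - a 1)) / D,
    ((h c - h a) * (b 0 - a 0) - (h b - h a) * (c 0 - a 0)) / D,
    h a - ((h b - h a) * (c 1 - a 1) - (h c - h a) * (b 1 - a 1)) / D * a 0
      - ((h c - h a) * (b 0 - a 0) - (h b - h a) * (c 0 - a 0)) / D * a 1, ?_, ?_, ?_, ?_⟩
  · unfold lin; ring
  · have : D = (b 0 - a 0) * (c 1 - a 1) - (b 1 - a 1) * (c 0 - a 0) := by
      rw [hDdef]; simp only [orient, cr, PiLp.sub_apply]
    unfold lin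
    field_simp
    rw [this]; ring
  · have : D = (b 0 - a 0) * (c 1 - a 1) - (b 1 - a 1) * (c 0 - a 0) := by
      rw [hDdef]; simp only [orient, cr, PiLp.sub_apply]
    unfold lin
    field_simp
    rw [this]; ring
  · intro q hq
    by_contra hcon
    push Not at hcon
    have hlow : D * h q < orient q b c * h a + orient a q c * h b + orient a b q * h c := by
      have e : D * lin (((h b - h a) * (c 1 - a 1) - (h c - h a) * (b 1 - a 1)) / D)
        (((h c - h a) * (b 0 - a 0) - (h b - h a) * (c 0 - a 0)) / D)
        (h a - ((h b - h a) * (c 1 - a 1) - (h c - h a) * (b 1 - a 1)) / D * a 0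
          - ((h c - h a) * (b 0 - a 0) - (h b - h a) * (c 0 - a 0)) / D * a 1) q
          = orient q b c * h a + orient a q c * h b + orient a b q * h c := by
        have hD' : D = (b 0 - a 0) * (c 1 - a 1) - (b 1 - a 1) * (c 0 - a 0) := by
          rw [hDdef]; simp only [orient, cr, PiLp.sub_apply]
        unfold lin
        field_simp
        rw [hD']
        simp only [orient, cr, PiLp.sub_apply]
        ring
      rw [← e]
      exact mul_lt_mul_of_pos_left hcon hD
    have hsum : 0 < orient q b c + orient a q c + orient a b q := by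
      have : orient q b c + orient a q c + orient a b q = D := by
        rw [hDdef]; simp only [orient, cr, PiLp.sub_apply]; ring
      rw [this]; exact hD
    obtain ⟨_, hl, hm, hn⟩ := H
    rcases three_cases _ _ _ _ _ _ hsum hl hm hn with ⟨hA, h1, h2⟩ | ⟨hB, h1, h2⟩ | ⟨hC, h1, h2⟩
    · obtain ⟨h3, h4⟩ := exch hx hb hc hq ⟨hD, hl, hm, hn⟩ hlow hA h1 h2
      exact absurd (hmin' q hq b hb c hc h3) (not_le.2 h4)
    · -- rotate: (b, c, a)
      have Hr : SIn x b c a := SIn.rot ⟨hD, hl, hm, hn⟩
      have e1 : orient q c a = orient a q c := by simp only [orient, cr, PiLp.sub_apply]; ring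
      have e2 : orient b q a = orient a b q := by simp only [orient, cr, PiLp.sub_apply]; ring
      have e3 : orient b c q = orient q b c := by simp only [orient, cr, PiLp.sub_apply]; ring
      have e4 : orient b c a = D := by rw [hDdef, orient_rot]
      have e5 : orient x c a = orient a x c := by simp only [orient, cr, PiLp.sub_apply]; ring
      have e6 : orient b x a = orient a b x := by simp only [orient, cr, PiLp.sub_apply]; ring
      have e7 : orient b c x = orient x b c := by simp only [orient, cr, PiLp.sub_apply]; ring
      obtain ⟨h3, h4⟩ := exch (h := h) hx hc ha hq Hr (by rw [e1, e2, e3, e4]; linarith)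
        (by rw [e1]; exact hB) (by rw [e5, e2, e6, e1]; exact h1) (by rw [e5, e3, e7, e1]; exact h2)
      have e8 : val h x b c a = val h x a b c := val_rot h x a b c
      rw [e8] at h4
      exact absurd (hmin' q hq c hc a ha h3) (not_le.2 h4)
    · -- rotate twice: (c, a, b)
      have Hr : SIn x c a b := SIn.rot (SIn.rot ⟨hD, hl, hm, hn⟩)
      have e1 : orient q a b = orient a b q := by simp only [orient, cr, PiLp.sub_apply]; ring
      have e2 : orient c q b = orient q b c := by simp only [orient, cr, PiLp.sub_apply]; ring
      have e3 : orient c a q = orient a q c := by simp only [orient, cr, PiLp.sub_apply]; ring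
      have e4 : orient c a b = D := by rw [hDdef, orient_rot']
      have e5 : orient x a b = orient a b x := by simp only [orient, cr, PiLp.sub_apply]; ring
      have e6 : orient c x b = orient x b c := by simp only [orient, cr, PiLp.sub_apply]; ring
      have e7 : orient c a x = orient a x c := by simp only [orient, cr, PiLp.sub_apply]; ring
      obtain ⟨h3, h4⟩ := exch (h := h) hx ha hb hq Hr (by rw [e1, e2, e3, e4]; linarith)
        (by rw [e1]; exact hC) (by rw [e5, e2, e6, e1]; exact h1) (by rw [e5, e3, e7, e1]; exact h2)
      have : val h x c a b = val h x a b c := by rw [val_rot, val_rot]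
      rw [this] at h4
      exact absurd (hmin' q hq a ha b hb h3) (not_le.2 h4)

end Pool.Agent.Work.MP_9ad55e_co
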