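import Pool.Agent.Work.MP_9ad55e_co.Kershner

set_option autoImplicit false

namespace Pool.Agent.Work.MP_9ad55e_co

open MeasureTheory Set
open scoped ENNReal RealInnerProductSpace

/-- Covering of a disc of radius `R` by discs of radius `1/2` centred at `P`. -/
def Cov (P : Finset E) (R : ℝ) : Prop := ∀ y : E, ‖y‖ ≤ R → ∃ p ∈ P, ‖p - y‖ ≤ 1 / 2

lemma mem_hull {P : Finset E} {R : ℝ} (hR : 1 ≤ R) (hcov : Cov P R) {x : E} (hx : ‖x‖ ≤ R - 1) :
    x ∈ convexHull ℝ (P : Set E) := by
  by_contra hcon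
  have hclosed : IsClosed (convexHull ℝ (P : Set E)) :=
    (P.finite_toSet.isCompact_convexHull ℝ).isClosed
  obtain ⟨f, u, h1, h2⟩ := geometric_hahn_banach_closed_point (convex_convexHull ℝ _) hclosed hcon
  obtain ⟨p0, hp0, _⟩ := hcov 0 (by simp; linarith)
  set v : E := (InnerProductSpace.toDual ℝ E).symm f with hv
  have hf : ∀ z, f z = ⟪v, z⟫ := by
    intro z
    rw [hv, InnerProductSpace.toDual_symm_apply]
  have hv0 : v ≠ 0 := by
    intro h0
    have := h1 p0 (subset_convexHull ℝ _ hp0)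
    rw [hf, h0, inner_zero_left] at this
    rw [hf, h0, inner_zero_left] at h2
    linarith
  have hvn : 0 < ‖v‖ := norm_pos_iff.2 hv0
  set y : E := x + (3 / 4 / ‖v‖) • v with hy
  have hyn : ‖y‖ ≤ R := by
    calc ‖y‖ ≤ ‖x‖ + ‖(3 / 4 / ‖v‖) • v‖ := norm_add_le _ _
      _ = ‖x‖ + 3 / 4 := by
        rw [norm_smul, Real.norm_of_nonneg (by positivity)]
        field_simp
      _ ≤ R := by linarith
  obtain ⟨p, hp, hpy⟩ := hcov y hyn
  have h3 := h1 p (subset_convexHull ℝ _ hp)
  have h4 : f y = f x + 3 / 4 * ‖v‖ := by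
    rw [hy, map_add, map_smul, hf v, real_inner_self_eq_norm_sq, smul_eq_mul]
    field_simp
  have h5 : f y - f p ≤ ‖v‖ * (1 / 2) := by
    rw [← map_sub, hf]
    calc ⟪v, y - p⟫ ≤ ‖v‖ * ‖y - p‖ := real_inner_le_norm _ _
      _ ≤ ‖v‖ * (1 / 2) := by
        rw [norm_sub_rev]
        gcongr
  nlinarith

/-- A generic point of the hull lies strictly inside a positive triangle. -/
lemma exists_sin {P : Finset E} {x : E} (hx : GenPt P x) (hh : x ∈ convexHull ℝ (P : Set E)) :
    ∃ a ∈ P, ∃ b ∈ P, ∃ c ∈ P, SIn x a b c := by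
  classical
  rw [convexHull_eq_union] at hh
  simp only [Set.mem_iUnion] at hh
  obtain ⟨t, htP, hti, hxt⟩ := hh
  have hcard : t.card ≤ 3 := by
    have h1 := hti.card_le_finrank_succ
    have h2 : Module.finrank ℝ (vectorSpan ℝ (Set.range ((↑) : t → E))) ≤ Module.finrank ℝ E :=
      Submodule.finrank_le _
    simp only [Fintype.card_coe] at h1
    have h3 : Module.finrank ℝ E = 2 := by simp
    omega
  have hsub : ∀ p ∈ t, p ∈ P := fun p hp => htP hp
  rcases Nat.lt_or_ge t.card 3 with hlt | hge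
  · exfalso
    interval_cases hc : t.card
    · rw [Finset.card_eq_zero] at hc
      subst hc
      simp at hxt
    · rw [Finset.card_eq_one] at hc
      obtain ⟨p, rfl⟩ := hc
      simp at hxt
      subst hxt
      exact hx.1 (hsub x (by simp))
    · rw [Finset.card_eq_two] at hc
      obtain ⟨p, q, hpq, rfl⟩ := hc
      simp only [Finset.coe_insert, Finset.coe_singleton, convexHull_pair] at hxt
      obtain ⟨l, m, hl, hm, hlm, rfl⟩ := hxt
      apply hx.2 p (hsub p (by simp)) q (hsub q (by simp)) hpq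
      simp only [orient, cr, PiLp.sub_apply, PiLp.add_apply, PiLp.smul_apply, smul_eq_mul]
      have : l = 1 - m := by linarith
      rw [this]; ring
  · have hc : t.card = 3 := le_antisymm hcard hge
    rw [Finset.card_eq_three] at hc
    obtain ⟨a, b, c, hab, hac, hbc, rfl⟩ := hc
    rw [Finset.mem_convexHull'] at hxt
    obtain ⟨w, hw0, hw1, hwx⟩ := hxt
    have hbc' : a ∉ ({b, c} : Finset E) := by simp [hab, hac]
    have hbc'' : b ∉ ({c} : Finset E) := by simp [hbc]
    rw [Finset.sum_insert hbc', Finset.sum_insert hbc'', Finset.sum_singleton] at hw1 hwx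
    have wa := hw0 a (by simp)
    have wb := hw0 b (by simp)
    have wc := hw0 c (by simp)
    have ha : a ∈ P := hsub a (by simp)
    have hb : b ∈ P := hsub b (by simp)
    have hcP : c ∈ P := hsub c (by simp)
    have i1 : orient x b c = w a * orient a b c := by
      rw [← hwx]
      simp only [orient, cr, PiLp.sub_apply, PiLp.add_apply, PiLp.smul_apply, smul_eq_mul]
      have : w a = 1 - w b - w c := by linarith
      rw [this]; ring
    have i2 : orient a x c = w b * orient a b c := by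
      rw [← hwx]
      simp only [orient, cr, PiLp.sub_apply, PiLp.add_apply, PiLp.smul_apply, smul_eq_mul]
      have : w a = 1 - w b - w c := by linarith
      rw [this]; ring
    have i3 : orient a b x = w c * orient a b c := by
      rw [← hwx]
      simp only [orient, cr, PiLp.sub_apply, PiLp.add_apply, PiLp.smul_apply, smul_eq_mul]
      have : w a = 1 - w b - w c := by linarith
      rw [this]; ring
    have n1 : orient x b c ≠ 0 := by
      have e : orient x b c = orient b c x := by simp only [orient, cr, PiLp.sub_apply]; ring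
      rw [e]; exact hx.2 b hb c hcP hbc
    have n2 : orient a x c ≠ 0 := by
      have e : orient a x c = orient c a x := by simp only [orient, cr, PiLp.sub_apply]; ring
      rw [e]; exact hx.2 c hcP a ha hac.symm
    have n3 : orient a b x ≠ 0 := hx.2 a ha b hb hab
    have wa' : 0 < w a := lt_of_le_of_ne wa (fun h => n1 (by rw [i1, ← h, zero_mul]))
    have wb' : 0 < w b := lt_of_le_of_ne wb (fun h => n2 (by rw [i2, ← h, zero_mul]))
    have wc' : 0 < w c := lt_of_le_of_ne wc (fun h => n3 (by rw [i3, ← h, zero_mul]))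
    have hD : orient a b c ≠ 0 := fun h => n1 (by rw [i1, h, mul_zero])
    rcases lt_or_gt_of_ne hD with h | h
    · refine ⟨a, ha, c, hcP, b, hb, ?_, ?_, ?_, ?_⟩
      · rw [orient_swap]; linarith
      · have e : orient x c b = - orient x b c := orient_swap _ _ _
        rw [e, i1]; nlinarith
      · have e : orient a x b = - orient a b x := orient_swap _ _ _
        rw [e, i3]; nlinarith
      · have e : orient a c x = - orient a x c := orient_swap _ _ _
        rw [e, i2]; nlinarith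
    · refine ⟨a, ha, b, hb, c, hcP, h, ?_, ?_, ?_⟩
      · rw [i1]; positivity
      · rw [i2]; positivity
      · rw [i3]; positivity

/-- The size bound for relevant Delaunay triangles. -/
lemma orient_bound {h : E → ℝ} {P : Finset E} {R ε : ℝ} (hε : 0 < ε) (hε1 : ε ≤ 1 / 8)
    (hh : ∀ p ∈ P, ‖p‖ ^ 2 ≤ h p ∧ h p ≤ ‖p‖ ^ 2 + ε) (hcov : Cov P R) {x a b c : E}
    (hx : ‖x‖ ≤ R - 1) (ha : a ∈ P) (hb : b ∈ P) (hc : c ∈ P) (hs : SIn x a b c)
    (hd : Del h P a b c) : orient a b c ≤ 3 * √3 / 2 * (1 / 4 + ε) := by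
  obtain ⟨hD, α, β, κ, la, lb, lc, lq⟩ := hd
  set o : E := !₂[α / 2, β / 2] with ho
  have o0 : o 0 = α / 2 := by simp [ho]
  have o1 : o 1 = β / 2 := by simp [ho]
  set r : ℝ := κ + ‖o‖ ^ 2 with hr
  have hdist : ∀ p : E, ‖p - o‖ ^ 2 = ‖p‖ ^ 2 - lin α β κ p + r := by
    intro p
    rw [hr, norm_sq_eq, norm_sq_eq, norm_sq_eq]
    simp only [PiLp.sub_apply, o0, o1, lin]
    ring
  have va : ‖a - o‖ ^ 2 ≤ r := by rw [hdist, la]; linarith [(hh a ha).1]
  have vb : ‖b - o‖ ^ 2 ≤ r := by rw [hdist, lb]; linarith [(hh b hb).1]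
  have vc : ‖c - o‖ ^ 2 ≤ r := by rw [hdist, lc]; linarith [(hh c hc).1]
  have far : ∀ p ∈ P, r - ε ≤ ‖p - o‖ ^ 2 := by
    intro p hp
    rw [hdist]
    linarith [(hh p hp).2, lq p hp]
  have hr0 : 0 ≤ r := le_trans (sq_nonneg _) va
  have claim : r ≤ 1 / 4 + ε := by
    by_contra hcon
    push Not at hcon
    set ρ := √r with hρ
    have hρ2 : ρ ^ 2 = r := Real.sq_sqrt hr0
    have hρ0 : 0 ≤ ρ := Real.sqrt_nonneg _
    have hρh : 1 / 2 < ρ := by nlinarith
    have hxo : ‖x - o‖ ≤ ρ := by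
      have hxt : x ∈ tri a b c := triH_sub_tri a b c hD ⟨hs.2.1.le, hs.2.2.1.le, hs.2.2.2.le⟩
      obtain ⟨l, m, n, hl, hm, hn, h1, h2⟩ := hxt
      have na : ‖a - o‖ ≤ ρ := Real.le_sqrt_of_sq_le va
      have nb : ‖b - o‖ ≤ ρ := Real.le_sqrt_of_sq_le vb
      have nc : ‖c - o‖ ≤ ρ := Real.le_sqrt_of_sq_le vc
      have e : x - o = l • (a - o) + m • (b - o) + n • (c - o) := by
        rw [h2]
        have : o = (l + m + n) • o := by rw [h1, one_smul]
        nth_rewrite 1 [this]
        module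
      rw [e]
      calc ‖l • (a - o) + m • (b - o) + n • (c - o)‖ ≤ ‖l • (a - o)‖ + ‖m • (b - o)‖ + ‖n • (c - o)‖ :=
            norm_add₃_le
        _ = l * ‖a - o‖ + m * ‖b - o‖ + n * ‖c - o‖ := by
            rw [norm_smul, norm_smul, norm_smul, Real.norm_of_nonneg hl, Real.norm_of_nonneg hm,
              Real.norm_of_nonneg hn]
        _ ≤ l * ρ + m * ρ + n * ρ := by gcongr
        _ = ρ := by rw [← add_mul, ← add_mul, h1, one_mul]
    rcases le_or_gt ‖x - o‖ (3 / 4) with hcase | hcase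
    · have hoR : ‖o‖ ≤ R := by
        calc ‖o‖ = ‖x - (x - o)‖ := by congr 1; abel
          _ ≤ ‖x‖ + ‖x - o‖ := norm_sub_le _ _
          _ ≤ R := by linarith
      obtain ⟨p, hp, hpo⟩ := hcov o hoR
      have := far p hp
      have h2 : ‖p - o‖ ^ 2 ≤ (1 / 2) ^ 2 := by gcongr
      linarith
    · set d := ‖x - o‖ with hd
      have hd0 : 0 < d := by linarith
      set y : E := x + (3 / 4 / d) • (o - x) with hy
      have hyx : ‖(3 / 4 / d) • (o - x)‖ = 3 / 4 := by
        rw [norm_smul, Real.norm_of_nonneg (by positivity), norm_sub_rev, ← hd]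
        field_simp
      have hyR : ‖y‖ ≤ R := by
        calc ‖y‖ ≤ ‖x‖ + ‖(3 / 4 / d) • (o - x)‖ := norm_add_le _ _
          _ ≤ R := by rw [hyx]; linarith
      have hyo : ‖y - o‖ = d - 3 / 4 := by
        have e : y - o = (1 - 3 / 4 / d) • (x - o) := by
          rw [hy]; module
        rw [e, norm_smul, Real.norm_of_nonneg, ← hd]
        · field_simp
        · rw [sub_nonneg, div_le_one hd0]; exact hcase.le
      obtain ⟨p, hp, hpy⟩ := hcov y hyR
      have h1 : ‖p - o‖ ≤ ρ - 1 / 4 := by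
        calc ‖p - o‖ = ‖(p - y) + (y - o)‖ := by congr 1; abel
          _ ≤ ‖p - y‖ + ‖y - o‖ := norm_add_le _ _
          _ ≤ 1 / 2 + (d - 3 / 4) := by rw [hyo]; gcongr
          _ ≤ ρ - 1 / 4 := by linarith
      have h2 := far p hp
      have h3 : ‖p - o‖ ^ 2 ≤ (ρ - 1 / 4) ^ 2 := by gcongr
      nlinarith
  exact orient_le a b c o (1 / 4 + ε) (va.trans claim) (vb.trans claim) (vc.trans claim)

end Pool.Agent.Work.MP_9ad55e_co
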