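import Pool.Agent.Work.MP_9ad55e_co.Kershner2

set_option autoImplicit false

namespace Pool.Agent.Work.MP_9ad55e_co

open MeasureTheory Set
open scoped ENNReal RealInnerProductSpace

lemma ae_genPt (P : Finset E) : ∀ᵐ x ∂(volume : Measure E), GenPt P x := by
  have h1 : ∀ᵐ x ∂(volume : Measure E), x ∉ (P : Set E) := by
    have : volume (P : Set E) = 0 := P.finite_toSet.measure_zero _
    rw [ae_iff]
    simpa using this
  have h2 : ∀ᵐ x ∂(volume : Measure E), ∀ p ∈ (P : Set E), ∀ q ∈ (P : Set E), p ≠ q → orient p q x ≠ 0 := by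
    rw [ae_ball_iff P.countable_toSet]
    intro p _
    rw [ae_ball_iff P.countable_toSet]
    intro q _
    by_cases hpq : p = q
    · simp [hpq]
    · have hne : -(q 1 - p 1) ≠ 0 ∨ (q 0 - p 0) ≠ 0 := by
        by_contra hcon
        push Not at hcon
        apply hpq
        apply ext2
        · linarith [hcon.2]
        · linarith [hcon.1]
      have := volume_line (-(q 1 - p 1)) (q 0 - p 0) (-(q 1 - p 1) * p 0 + (q 0 - p 0) * p 1) hne
      rw [ae_iff]
      refine measure_mono_null ?_ this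
      intro x hx
      simp only [Set.mem_ofPred_eq] at hx ⊢
      push Not at hx
      have h3 := hx.2
      simp only [orient, cr, PiLp.sub_apply] at h3
      linarith
  filter_upwards [h1, h2] with x hx1 hx2
  exact ⟨hx1, hx2⟩

lemma kershner_eps {P : Finset E} {R ε : ℝ} (hR : 1 ≤ R) (hcov : Cov P R) (hε : 0 < ε)
    (hε1 : ε ≤ 1 / 8) :
    3 * volume (Metric.closedBall (0:E) (R - 1)) ≤
      (6 * P.card : ℝ≥0∞) * ENNReal.ofReal (3 * √3 / 2 * (1 / 4 + ε) / 2) := by
  classical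
  obtain ⟨h, hh, hG⟩ := exists_height P ε hε
  have hG' : Gen h P := hG
  set K := 3 * √3 / 2 * (1 / 4 + ε) with hK
  let T : Finset (E × E × E) := (TT h P).filter (fun t => orient t.1 t.2.1 t.2.2 ≤ K)
  have hTmem : ∀ a b c : E, (a, b, c) ∈ T ↔ ((a ∈ P ∧ b ∈ P ∧ c ∈ P) ∧ Del h P a b c) ∧ orient a b c ≤ K := by
    intro a b c
    simp only [T, Finset.mem_filter, mem_TT]
  have hcard : (T.card : ℝ≥0∞) ≤ 6 * P.card := by
    have h1 : T.card ≤ (TT h P).card := Finset.card_filter_le _ _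
    have h2 := card_TT_le hG'
    exact_mod_cast h1.trans h2
  have hpt : ∀ᵐ x ∂(volume : Measure E), x ∈ Metric.closedBall (0:E) (R - 1) →
      (3 : ℝ≥0∞) ≤ ∑ t ∈ T, (triH t.1 t.2.1 t.2.2).indicator (fun _ => (1:ℝ≥0∞)) x := by
    filter_upwards [ae_genPt P] with x hx hxb
    have hxn : ‖x‖ ≤ R - 1 := by simpa using hxb
    obtain ⟨a, ha, b, hb, c, hc, hs, hd⟩ := exists_del (h := h) hx (exists_sin hx (mem_hull hR hcov hxn))
    have hbound := orient_bound hε hε1 hh hcov hxn ha hb hc hs hd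
    have hn := orient_ne hs.1
    have t1 : (a, b, c) ∈ T := (hTmem _ _ _).2 ⟨⟨⟨ha, hb, hc⟩, hd⟩, hbound⟩
    have t2 : (b, c, a) ∈ T := (hTmem _ _ _).2 ⟨⟨⟨hb, hc, ha⟩, hd.rot⟩, by rw [orient_rot]; exact hbound⟩
    have t3 : (c, a, b) ∈ T := (hTmem _ _ _).2 ⟨⟨⟨hc, ha, hb⟩, hd.rot'⟩, by rw [orient_rot']; exact hbound⟩
    have m1 : x ∈ triH a b c := ⟨hs.2.1.le, hs.2.2.1.le, hs.2.2.2.le⟩
    have m2 : x ∈ triH b c a := ⟨hs.rot.2.1.le, hs.rot.2.2.1.le, hs.rot.2.2.2.le⟩
    have m3 : x ∈ triH c a b := ⟨hs.rot.rot.2.1.le, hs.rot.rot.2.2.1.le, hs.rot.rot.2.2.2.le⟩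
    have d12 : (a, b, c) ≠ (b, c, a) := fun h => hn.1 (Prod.ext_iff.1 h).1
    have d13 : (a, b, c) ≠ (c, a, b) := fun h => hn.2.2 (Prod.ext_iff.1 h).1
    have d23 : (b, c, a) ≠ (c, a, b) := fun h => hn.2.1 (Prod.ext_iff.1 h).1
    have hsub : ({(a, b, c), (b, c, a), (c, a, b)} : Finset (E × E × E)) ⊆ T := by
      intro t ht
      simp only [Finset.mem_insert, Finset.mem_singleton] at ht
      rcases ht with rfl | rfl | rfl <;> assumption
    calc (3 : ℝ≥0∞) = ∑ t ∈ ({(a, b, c), (b, c, a), (c, a, b)} : Finset (E × E × E)),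
          (triH t.1 t.2.1 t.2.2).indicator (fun _ => (1:ℝ≥0∞)) x := by
          rw [Finset.sum_insert (by simp [d12, d13]), Finset.sum_insert (by simp [d23]),
            Finset.sum_singleton]
          simp only [Set.indicator_of_mem m1, Set.indicator_of_mem m2, Set.indicator_of_mem m3]
          norm_num
      _ ≤ _ := Finset.sum_le_sum_of_subset hsub
  have hvol : ∀ t ∈ T, volume (triH t.1 t.2.1 t.2.2) ≤ ENNReal.ofReal (K / 2) := by
    rintro ⟨a, b, c⟩ ht
    rw [hTmem] at ht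
    refine (volume_triH_le a b c ht.1.2.1).trans ?_
    apply ENNReal.ofReal_le_ofReal
    linarith [ht.2]
  calc 3 * volume (Metric.closedBall (0:E) (R - 1))
      = ∫⁻ x in Metric.closedBall (0:E) (R - 1), 3 ∂volume := by
        rw [setLIntegral_const]
    _ ≤ ∫⁻ x in Metric.closedBall (0:E) (R - 1),
          ∑ t ∈ T, (triH t.1 t.2.1 t.2.2).indicator (fun _ => (1:ℝ≥0∞)) x ∂volume := by
        apply lintegral_mono_ae
        rw [ae_restrict_iff' measurableSet_closedBall]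
        exact hpt
    _ ≤ ∫⁻ x, ∑ t ∈ T, (triH t.1 t.2.1 t.2.2).indicator (fun _ => (1:ℝ≥0∞)) x ∂volume :=
        setLIntegral_le_lintegral _ _
    _ = ∑ t ∈ T, volume (triH t.1 t.2.1 t.2.2) := by
        rw [lintegral_finsetSum]
        · apply Finset.sum_congr rfl
          intro t _
          rw [lintegral_indicator (isClosed_triH _ _ _).measurableSet]
          simp
        · intro t _
          exact measurable_const.indicator (isClosed_triH _ _ _).measurableSet
    _ ≤ ∑ t ∈ T, ENNReal.ofReal (K / 2) := Finset.sum_le_sum hvol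
    _ = T.card * ENNReal.ofReal (K / 2) := by rw [Finset.sum_const, nsmul_eq_mul]
    _ ≤ (6 * P.card : ℝ≥0∞) * ENNReal.ofReal (K / 2) := by gcongr

/-- Kershner's theorem, finite form with a boundary layer. -/
theorem kershner {P : Finset E} {R : ℝ} (hR : 1 ≤ R) (hcov : Cov P R) :
    8 / (3 * √3) * (Real.pi * (R - 1) ^ 2) ≤ P.card := by
  have hs : 0 < √3 := Real.sqrt_pos.2 (by norm_num)
  have key : ∀ ε : ℝ, 0 < ε → ε ≤ 1 / 8 →
      3 * (Real.pi * (R - 1) ^ 2) ≤ 6 * P.card * (3 * √3 / 2 * (1 / 4 + ε) / 2) := by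
    intro ε hε hε1
    have h := kershner_eps hR hcov hε hε1
    rw [EuclideanSpace.volume_closedBall_fin_two] at h
    have e1 : (3 : ℝ≥0∞) * (ENNReal.ofReal (R - 1) ^ 2 * ENNReal.ofReal Real.pi) =
        ENNReal.ofReal (3 * (Real.pi * (R - 1) ^ 2)) := by
      rw [ENNReal.ofReal_mul (by norm_num), ENNReal.ofReal_mul Real.pi_pos.le,
        ENNReal.ofReal_pow (by linarith)]
      rw [mul_comm (ENNReal.ofReal (R - 1) ^ 2)]
      simp
    have e2 : (6 * P.card : ℝ≥0∞) * ENNReal.ofReal (3 * √3 / 2 * (1 / 4 + ε) / 2) =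
        ENNReal.ofReal (6 * P.card * (3 * √3 / 2 * (1 / 4 + ε) / 2)) := by
      rw [ENNReal.ofReal_mul (p := 6 * (P.card : ℝ)) (by positivity), ENNReal.ofReal_mul (by norm_num)]
      simp
    rw [e1, e2, ENNReal.ofReal_le_ofReal_iff (by positivity)] at h
    exact h
  have lim : 3 * (Real.pi * (R - 1) ^ 2) ≤ 6 * P.card * (3 * √3 / 2 * (1 / 4) / 2) := by
    apply le_of_forall_pos_le_add
    intro δ hδ
    set C : ℝ := 6 * P.card * (3 * √3 / 2 / 2) with hC
    have hC0 : 0 ≤ C := by positivity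
    set ε := min (1 / 8) (δ / (C + 1)) with hεdef
    have hε : 0 < ε := by positivity
    have h1 := key ε hε (min_le_left _ _)
    have h2 : C * ε ≤ δ := by
      have h3 : ε ≤ δ / (C + 1) := min_le_right _ _
      calc C * ε ≤ (C + 1) * ε := by nlinarith
        _ ≤ (C + 1) * (δ / (C + 1)) := by gcongr
        _ = δ := by field_simp
    calc 3 * (Real.pi * (R - 1) ^ 2) ≤ 6 * P.card * (3 * √3 / 2 * (1 / 4 + ε) / 2) := h1
      _ = 6 * P.card * (3 * √3 / 2 * (1 / 4) / 2) + C * ε := by rw [hC]; ring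
      _ ≤ _ := by linarith
  rw [div_mul_eq_mul_div, div_le_iff₀ (by positivity)]
  have e3 : √3 * √3 = 3 := Real.mul_self_sqrt (by norm_num)
  nlinarith

end Pool.Agent.Work.MP_9ad55e_co
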