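import Pool.Agent.Work.MP_9ad55e_co.Kershner3

set_option autoImplicit false

namespace Pool.Agent.Work.MP_9ad55e_co

open MeasureTheory Set
open scoped ENNReal

/-- The vertices of the twelve polygons (unit `1/500`), in counterclockwise order. -/
def V : Fin 12 → List (ℤ × ℤ) := ![
  [(1203, 862), (1314, 1134), (1049, 1337), (817, 1179), (895, 862)],
  [(581, 1511), (273, 1511), (195, 1194), (427, 1036), (692, 1239)],
  [(1049, 388), (817, 546), (552, 343), (663, 71), (971, 71)],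
  [(349, 720), (41, 720), (-70, 448), (195, 245), (427, 403)],
  [(971, 71), (1079, -42), (1409, 42), (1439, 245), (1174, 448), (1049, 388)],
  [(817, 546), (787, 749), (457, 833), (349, 720), (427, 403), (552, 343)],
  [(817, 1179), (692, 1239), (427, 1036), (457, 833), (787, 749), (895, 862)],
  [(273, 1511), (165, 1624), (-165, 1540), (-195, 1337), (70, 1134), (195, 1194)],
  [(552, 343), (427, 403), (195, 245), (165, 42), (273, -71), (581, -71), (663, 71)],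
  [(692, 1239), (817, 1179), (1049, 1337), (1079, 1540), (971, 1653), (663, 1653), (581, 1511)],
  [(457, 833), (427, 1036), (195, 1194), (70, 1134), (-41, 862), (41, 720), (349, 720)],
  [(817, 546), (1049, 388), (1174, 448), (1285, 720), (1203, 862), (895, 862), (787, 749)]]

/-- Edge form: nonnegative to the left of the edge from `v` to `w`. -/
def crs (v w : ℤ × ℤ) (x y : ℝ) : ℝ :=
  ((w.1 : ℝ) - v.1) * (y - v.2) - ((w.2 : ℝ) - v.2) * (x - v.1)

lemma crs_swap (v w : ℤ × ℤ) (x y : ℝ) : crs w v x y = - crs v w x y := by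
  unfold crs; ring

/-- Vertex `v` of a polygon translated by the lattice vector `(m, n)`. -/
noncomputable def emb (m n : ℤ) (v : ℤ × ℤ) : E :=
  !₂[((v.1 : ℝ) + 1244 * m) / 500, ((v.2 : ℝ) + 1582 * n) / 500]

/-- The cells of the tiling. -/
noncomputable def cell (i : Fin 12) (m n : ℤ) : Set E :=
  convexHull ℝ (emb m n '' {v | v ∈ V i})

lemma orient_emb (m n : ℤ) (u v : ℤ × ℤ) (x : E) :
    orient (emb m n u) (emb m n v) x = crs u v (500 * x 0 - 1244 * m) (500 * x 1 - 1582 * n) / 250000 := by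
  simp only [orient, cr, crs, emb, PiLp.sub_apply]
  simp
  ring

lemma orient_emb3 (m n : ℤ) (u v w : ℤ × ℤ) :
    orient (emb m n u) (emb m n v) (emb m n w) = crs u v w.1 w.2 / 250000 := by
  simp only [orient, cr, crs, emb, PiLp.sub_apply]
  simp
  ring

lemma tri_mem {i : Fin 12} {m n : ℤ} {x : E} {X Y : ℝ} (hX : X = 500 * x 0 - 1244 * m)
    (hY : Y = 500 * x 1 - 1582 * n) (u v w : ℤ × ℤ)
    (hu : u ∈ V i) (hv : v ∈ V i) (hw : w ∈ V i) (hD : 0 < crs u v w.1 w.2)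
    (h1 : 0 ≤ crs u v X Y) (h2 : 0 ≤ crs v w X Y) (h3 : 0 ≤ crs w u X Y) : x ∈ cell i m n := by
  subst hX
  subst hY
  have hD' : 0 < orient (emb m n u) (emb m n v) (emb m n w) := by
    rw [orient_emb3]; positivity
  have hx : x ∈ tri (emb m n u) (emb m n v) (emb m n w) := by
    apply triH_sub_tri _ _ _ hD'
    refine ⟨?_, ?_, ?_⟩
    · have e : orient x (emb m n v) (emb m n w) = orient (emb m n v) (emb m n w) x := by
        simp only [orient, cr, PiLp.sub_apply]; ring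
      rw [e, orient_emb]; positivity
    · have e : orient (emb m n u) x (emb m n w) = orient (emb m n w) (emb m n u) x := by
        simp only [orient, cr, PiLp.sub_apply]; ring
      rw [e, orient_emb]; positivity
    · rw [orient_emb]; positivity
  obtain ⟨l, a, b, hl, ha, hb, h1, h2⟩ := hx
  rw [h2]
  have c := convex_convexHull ℝ (emb m n '' {v | v ∈ V i})
  have mu : emb m n u ∈ cell i m n := subset_convexHull ℝ _ ⟨u, hu, rfl⟩
  have mv : emb m n v ∈ cell i m n := subset_convexHull ℝ _ ⟨v, hv, rfl⟩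
  have mw : emb m n w ∈ cell i m n := subset_convexHull ℝ _ ⟨w, hw, rfl⟩
  have hcomb := c.sum_mem (t := (Finset.univ : Finset (Fin 3))) (w := ![l, a, b])
    (z := ![emb m n u, emb m n v, emb m n w])
    (by intro j _; fin_cases j <;> simp [hl, ha, hb])
    (by simp [Fin.sum_univ_three, h1])
    (by intro j _; fin_cases j; exacts [mu, mv, mw])
  simpa [Fin.sum_univ_three, cell] using hcomb

/-- The edge inequalities of the polygon `v0, u, l`, except the one of the first edge. -/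
def edges (x y : ℝ) (v0 : ℤ × ℤ) : ℤ × ℤ → List (ℤ × ℤ) → Prop
  | u, [] => 0 ≤ crs u v0 x y
  | u, w :: l => 0 ≤ crs u w x y ∧ edges x y v0 w l

/-- Membership in the polygon with vertex list `L`, by edge inequalities. -/
def InP (x y : ℝ) : List (ℤ × ℤ) → Prop
  | v0 :: u :: l => 0 ≤ crs v0 u x y ∧ edges x y v0 u l
  | _ => False

/-- Membership in the polygon `i`, by edge inequalities. -/
def InPoly (i : Fin 12) (x y : ℝ) : Prop := InP x y (V i)

/-- Integer version of `crs`. -/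
def crz (v w u : ℤ × ℤ) : ℤ := (w.1 - v.1) * (u.2 - v.2) - (w.2 - v.2) * (u.1 - v.1)

lemma crz_cast (v w u : ℤ × ℤ) : ((crz v w u : ℤ) : ℝ) = crs v w u.1 u.2 := by
  unfold crz crs; push_cast; rfl

/-- All triangles of the fan from `v0` are positively oriented. -/
def fanOK (v0 : ℤ × ℤ) : ℤ × ℤ → List (ℤ × ℤ) → Bool
  | _, [] => true
  | u, w :: l => decide (0 < crz v0 u w) && fanOK v0 w l

/-- The list has at least three vertices and its fan is positively oriented. -/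
def polyOK : List (ℤ × ℤ) → Bool
  | v0 :: u :: w :: l => fanOK v0 u (w :: l)
  | _ => false

lemma polyOK_V : ∀ i : Fin 12, polyOK (V i) = true := by decide +kernel

lemma fan_mem {i : Fin 12} {m n : ℤ} {x : E} {X Y : ℝ} (hX : X = 500 * x 0 - 1244 * m)
    (hY : Y = 500 * x 1 - 1582 * n) (v0 : ℤ × ℤ) (hv0 : v0 ∈ V i) (l : List (ℤ × ℤ)) :
    ∀ u : ℤ × ℤ, l ≠ [] → fanOK v0 u l = true → 0 ≤ crs v0 u X Y → edges X Y v0 u l →
      u ∈ V i → (∀ v ∈ l, v ∈ V i) → x ∈ cell i m n := by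
  induction l with
  | nil => intro u h; exact absurd rfl h
  | cons w l ih =>
    intro u _ hf h1 h2 hu hl
    have hf1 : decide (0 < crz v0 u w) = true := (Bool.and_eq_true_iff.1 hf).1
    have hf2 : fanOK v0 w l = true := (Bool.and_eq_true_iff.1 hf).2
    have hD : (0 : ℝ) < crs v0 u w.1 w.2 := by
      rw [← crz_cast]
      exact Int.cast_pos.2 (of_decide_eq_true hf1)
    have hw : w ∈ V i := hl w List.mem_cons_self
    obtain ⟨h3, h4⟩ := h2
    cases l with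
    | nil => exact tri_mem hX hY v0 u w hv0 hu hw hD h1 h3 h4
    | cons w' l =>
      rcases le_total 0 (crs v0 w X Y) with g | g
      · exact ih w (List.cons_ne_nil _ _) hf2 g h4 hw (fun v hv => hl v (List.mem_cons_of_mem _ hv))
      · refine tri_mem hX hY v0 u w hv0 hu hw hD h1 h3 ?_
        rw [crs_swap]
        exact neg_nonneg.2 g

lemma poly_mem {i : Fin 12} {m n : ℤ} {x : E} {X Y : ℝ} (hX : X = 500 * x 0 - 1244 * m)
    (hY : Y = 500 * x 1 - 1582 * n) (h : InPoly i X Y) : x ∈ cell i m n := by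
  have hp := polyOK_V i
  have hm : ∀ v ∈ V i, v ∈ V i := fun _ h => h
  unfold InPoly at h
  generalize hL : V i = L at h hp hm
  match L, h, hp, hm with
  | v0 :: u :: w :: l, h, hp, hm =>
    have hm' : ∀ v ∈ v0 :: u :: w :: l, v ∈ V i := by rw [hL]; exact hm
    exact fan_mem hX hY v0 (hm' _ List.mem_cons_self) (w :: l) u (List.cons_ne_nil _ _) hp h.1 h.2
      (hm' _ (List.mem_cons_of_mem _ List.mem_cons_self))
      (fun v hv => hm' v (List.mem_cons_of_mem _ (List.mem_cons_of_mem _ hv)))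

/-- Linear forms `a x + b y + c` with integer coefficients. -/
abbrev Form := ℤ × ℤ × ℤ

/-- Value of a form. -/
def ev (F : Form) (x y : ℝ) : ℝ := (F.1 : ℝ) * x + (F.2.1 : ℝ) * y + (F.2.2 : ℝ)

/-- The edge form of `v, w` shifted by the lattice vector `(m, n)`. -/
def eform (m n : ℤ) (v w : ℤ × ℤ) : Form :=
  (-(w.2 - v.2), w.1 - v.1, (w.1 - v.1) * (-1582 * n - v.2) + (w.2 - v.2) * (1244 * m + v.1))

lemma ev_eform (m n : ℤ) (v w : ℤ × ℤ) (x y : ℝ) :
    ev (eform m n v w) x y = crs v w (x - 1244 * m) (y - 1582 * n) := by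
  simp only [ev, eform, crs]; push_cast; ring

/-- A certificate `(k, i, s, j, t)`: `k F = s h_i + t h_j + c` with `c` nonnegative. -/
abbrev Cert := ℕ × ℕ × ℕ × ℕ × ℕ

/-- The form number `i` of the list. -/
def nth : List Form → ℕ → Form
  | [], _ => (0, 0, 0)
  | h :: _, 0 => h
  | _ :: l, i + 1 => nth l i

/-- Check of a certificate. -/
def chk (C : List Form) (F : Form) (c : Cert) : Bool :=
  let h := nth C c.2.1
  let g := nth C c.2.2.2.1
  let k : ℤ := c.1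
  let s : ℤ := c.2.2.1
  let t : ℤ := c.2.2.2.2
  decide (0 < k) && decide (k * F.1 = s * h.1 + t * g.1) &&
    decide (k * F.2.1 = s * h.2.1 + t * g.2.1) &&
    decide (s * h.2.2 + t * g.2.2 ≤ k * F.2.2)

lemma nth_nonneg (x y : ℝ) (C : List Form) (hC : ∀ h ∈ C, 0 ≤ ev h x y) (i : ℕ) :
    0 ≤ ev (nth C i) x y := by
  induction C generalizing i with
  | nil => simp [nth, ev]
  | cons h l ih =>
    cases i with
    | zero => exact hC h List.mem_cons_self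
    | succ i => exact ih (fun g hg => hC g (List.mem_cons_of_mem _ hg)) i

lemma chk_sound (x y : ℝ) (C : List Form) (hC : ∀ h ∈ C, 0 ≤ ev h x y) (F : Form) (c : Cert)
    (h : chk C F c = true) : 0 ≤ ev F x y := by
  obtain ⟨k, i, s, j, t⟩ := c
  have hi := nth_nonneg x y C hC i
  have hj := nth_nonneg x y C hC j
  simp only [chk, Bool.and_eq_true, decide_eq_true_eq] at h
  generalize nth C i = h' at h hi
  generalize nth C j = g at h hj
  obtain ⟨⟨⟨hk, h1⟩, h2⟩, h3⟩ := h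
  have hk' : (0 : ℝ) < k := by exact_mod_cast hk
  have h1' : (k : ℝ) * F.1 = s * h'.1 + t * g.1 := by exact_mod_cast h1
  have h2' : (k : ℝ) * F.2.1 = s * h'.2.1 + t * g.2.1 := by exact_mod_cast h2
  have h3' : (s : ℝ) * h'.2.2 + t * g.2.2 ≤ k * F.2.2 := by exact_mod_cast h3
  have e1 : 0 ≤ (s : ℝ) * ev h' x y := mul_nonneg (Nat.cast_nonneg _) hi
  have e2 : 0 ≤ (t : ℝ) * ev g x y := mul_nonneg (Nat.cast_nonneg _) hj
  have e3 : (k : ℝ) * ev F x y = (s : ℝ) * ev h' x y + (t : ℝ) * ev g x y +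
      (k * F.2.2 - (s * h'.2.2 + t * g.2.2)) := by
    simp only [ev]
    linear_combination x * h1' + y * h2'
  have e4 : 0 ≤ (k : ℝ) * ev F x y := by
    rw [e3]
    exact add_nonneg (add_nonneg e1 e2) (sub_nonneg.2 h3')
  exact nonneg_of_mul_nonneg_right e4 hk'

/-- Check of the certificates of the edges. -/
def chkE (C : List Form) (m n : ℤ) (v0 : ℤ × ℤ) : ℤ × ℤ → List (ℤ × ℤ) → List Cert → Bool
  | u, [], c :: _ => chk C (eform m n u v0) c
  | u, w :: l, c :: cs => chk C (eform m n u w) c && chkE C m n v0 w l cs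
  | _, _, [] => false

/-- Check of the certificates of a polygon. -/
def chkP (C : List Form) (m n : ℤ) : List (ℤ × ℤ) → List Cert → Bool
  | v0 :: u :: l, c :: cs => chk C (eform m n v0 u) c && chkE C m n v0 u l cs
  | _, _ => false

lemma chkE_sound (x y : ℝ) (C : List Form) (hC : ∀ h ∈ C, 0 ≤ ev h x y) (m n : ℤ) (v0 : ℤ × ℤ)
    (l : List (ℤ × ℤ)) : ∀ (u : ℤ × ℤ) (cs : List Cert), chkE C m n v0 u l cs = true →
      edges (x - 1244 * m) (y - 1582 * n) v0 u l := by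
  induction l with
  | nil =>
    intro u cs h
    cases cs with
    | nil => exact absurd h Bool.false_ne_true
    | cons c cs =>
      have := chk_sound x y C hC _ c h
      rw [ev_eform] at this
      exact this
  | cons w l ih =>
    intro u cs h
    cases cs with
    | nil => exact absurd h Bool.false_ne_true
    | cons c cs =>
      obtain ⟨h1, h2⟩ := Bool.and_eq_true_iff.1 h
      have := chk_sound x y C hC _ c h1
      rw [ev_eform] at this
      exact ⟨this, ih w cs h2⟩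

lemma chkP_sound (x y : ℝ) (C : List Form) (hC : ∀ h ∈ C, 0 ≤ ev h x y) (m n : ℤ)
    (L : List (ℤ × ℤ)) (cs : List Cert) (h : chkP C m n L cs = true) :
    InP (x - 1244 * m) (y - 1582 * n) L := by
  match L, cs, h with
  | v0 :: u :: l, c :: cs, h =>
    obtain ⟨h1, h2⟩ := Bool.and_eq_true_iff.1 h
    have := chk_sound x y C hC _ c h1
    rw [ev_eform] at this
    exact ⟨this, chkE_sound x y C hC m n v0 l u cs h2⟩

/-- Decision trees over linear forms, with certificates at the leaves. -/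
inductive Tree
  | leaf : Fin 12 → ℤ → ℤ → List Cert → Tree
  | node : ℤ → ℤ → ℤ → Tree → Tree → Tree

/-- Check of a tree; the context is listed with the last form first. -/
def chkT : List Form → Tree → Bool
  | C, .leaf i m n cs => chkP C m n (V i) cs
  | C, .node a b c l r => chkT ((a, b, c) :: C) l && chkT ((-a, -b, -c) :: C) r

lemma chkT_sound (x y : ℝ) (t : Tree) : ∀ C : List Form, (∀ h ∈ C, 0 ≤ ev h x y) →
    chkT C t = true → ∃ i : Fin 12, ∃ m n : ℤ, InPoly i (x - 1244 * m) (y - 1582 * n) := by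
  induction t with
  | leaf i m n cs =>
    intro C hC h
    exact ⟨i, m, n, chkP_sound x y C hC m n (V i) cs h⟩
  | node a b c l r ihl ihr =>
    intro C hC h
    obtain ⟨h1, h2⟩ := Bool.and_eq_true_iff.1 h
    rcases le_total 0 (ev (a, b, c) x y) with g | g
    · refine ihl _ (fun h hh => ?_) h1
      rcases List.mem_cons.1 hh with rfl | hh
      · exact g
      · exact hC h hh
    · refine ihr _ (fun h hh => ?_) h2
      rcases List.mem_cons.1 hh with rfl | hh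
      · have e : ev (-a, -b, -c) x y = - ev (a, b, c) x y := by
          simp only [ev]; push_cast; ring
        rw [e]
        exact neg_nonneg.2 g
      · exact hC h hh

/-- The decision tree of the fundamental rectangle. -/
def theTree : Tree :=
 (.node (203) (265) (-567252)
 (.node (113) (108) (-288247)
 (.node (14) (-55) (69594)
 (.leaf 7 (1) (0) [(1, 3, 108, 5, 113), (1, 0, 6, 0, 0), (7727, 0, 25314, 1, 10745), (1, 2, 1, 0, 0), (53, 2, 25, 5, 8255), (18, 1, 13, 5, 7175)])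
 (.leaf 4 (0) (1) [(1, 1, 1, 0, 0), (1, 0, 6, 0, 0), (2, 0, 29, 3, 1535), (1, 3, 265, 5, 203), (113, 1, 60, 3, 20605), (113, 1, 317, 3, 43050)]))
 (.node (203) (-30) (-172837)
 (.leaf 7 (1) (0) [(1, 1, 1, 0, 0), (4219, 0, 7727, 1, 10745), (1, 0, 1, 0, 0), (1, 2, 1, 0, 0), (53, 2, 25, 5, 8255), (265, 2, 78, 5, 99839)])
 (.leaf 9 (0) (0) [(53, 2, 25, 5, 1895), (59885, 0, 88966, 2, 42356), (1, 0, 1, 0, 0), (1, 1, 1, 0, 0), (1, 3, 308, 0, 0), (203, 2, 142, 3, 54276), (203, 2, 272, 3, 49547)])))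
 (.node (203) (265) (-104510)
 (.node (79) (-116) (170497)
 (.node (79) (-116) (-85261)
 (.leaf 4 (0) (0) [(79, 0, 113, 5, 21640), (1, 5, 330, 6, 84), (1, 5, 30, 6, 203), (116, 0, 265, 6, 44483), (116, 0, 125, 6, 2915), (79, 0, 317, 5, 30610)])
 (.node (14) (55) (-52213)
 (.node (113) (-108) (-8039)
 (.node (272) (-111) (-231534)
 (.node (71) (41) (-120755)
 (.leaf 10 (1) (0) [(1, 8, 30, 10, 203), (27, 2, 58, 10, 10820), (111, 1, 125, 10, 27340), (1, 1, 1, 0, 0), (1, 0, 2, 0, 0), (41, 0, 308, 10, 21868), (41, 0, 108, 10, 12301)])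
 (.leaf 11 (0) (0) [(7727, 2, 5442, 3, 43280), (11, 3, 25, 10, 1010), (55, 3, 111, 10, 16514), (1, 0, 2, 0, 0), (2719, 0, 11968, 1, 3124), (1, 2, 1, 0, 0), (7727, 2, 10745, 3, 25314)]))
 (.node (0) (1) (-862)
 (.leaf 0 (0) (0) [(1, 1, 1, 0, 0), (1, 7, 1, 0, 0), (27, 2, 58, 10, 2288), (113, 0, 43050, 2, 317), (1, 0, 308, 0, 0)])
 (.leaf 11 (0) (0) [(7727, 2, 5442, 3, 43280), (11, 3, 25, 10, 1010), (1, 1, 1, 0, 0), (136, 0, 19033, 1, 71), (1, 0, 308, 0, 0), (1, 2, 1, 0, 0), (7727, 2, 10745, 3, 25314)])))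
 (.node (317) (78) (-350951)
 (.node (79) (-116) (72221)
 (.leaf 0 (0) (0) [(36, 2, 37, 10, 5611), (1, 7, 1, 0, 0), (1, 0, 2, 0, 0), (1, 1, 1, 0, 0), (3075, 1, 2486, 2, 6974)])
 (.leaf 9 (0) (0) [(42934, 0, 34945, 1, 16835), (1, 0, 2, 0, 0), (44483, 0, 59885, 7, 21178), (265, 7, 108, 10, 8021), (1, 8, 308, 0, 0), (317, 1, 142, 8, 37070), (14350, 1, 13973, 2, 4657)]))
 (.node (272) (111) (-363819)
 (.leaf 9 (0) (0) [(13971, 0, 34945, 1, 27340), (13971, 0, 85868, 1, 80642), (4657, 0, 8448, 1, 10231), (265, 7, 108, 10, 8021), (1, 8, 308, 0, 0), (136, 0, 71, 8, 19033), (1, 0, 1, 0, 0)])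
 (.node (317) (-78) (31317)
 (.node (12) (25) (-39279)
 (.node (0) (1) (-1511)
 (.node (71) (-41) (20700)
 (.leaf 9 (0) (0) [(1, 2, 5, 0, 0), (1, 1, 232, 14, 158), (1, 1, 295, 11, 1), (203, 1, 8021, 11, 113), (1, 12, 308, 0, 0), (1, 0, 2, 0, 0), (71, 0, 272, 1, 19033)])
 (.leaf 8 (0) (1) [(1, 12, 125, 14, 60), (1, 9, 2, 0, 0), (13, 3, 5, 15, 1054), (317, 1, 43050, 3, 113), (1, 1, 308, 0, 0), (1, 0, 2, 0, 0), (1, 4, 1, 0, 0)]))
 (.node (272) (111) (-325753)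
 (.leaf 9 (0) (0) [(1, 2, 5, 0, 0), (6989, 2, 85868, 5, 6734), (5468, 2, 30693, 4, 5435), (265, 11, 108, 14, 8021), (1, 1, 308, 0, 0), (136, 0, 71, 1, 19033), (1, 0, 1, 0, 0)])
 (.leaf 1 (0) (0) [(1, 1, 308, 0, 0), (1, 3, 1, 0, 0), (6, 1, 583, 2, 79), (5468, 0, 8255, 2, 94613), (1, 0, 1, 0, 0)])))
 (.node (79) (116) (-153909)
 (.node (203) (-265) (187859)
 (.leaf 6 (0) (0) [(1, 2, 5, 0, 0), (1, 0, 1, 0, 0), (44483, 0, 21178, 1, 59885), (1, 7, 6, 0, 0), (1, 6, 1, 0, 0), (1, 5, 1, 0, 0)])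
 (.leaf 1 (0) (0) [(8861, 2, 97636, 3, 3696), (1, 3, 1, 0, 0), (1, 1, 2, 0, 0), (1, 0, 1, 0, 0), (8255, 0, 5468, 2, 94613)]))
 (.node (203) (30) (-117761)
 (.leaf 6 (0) (0) [(1, 2, 5, 0, 0), (21178, 0, 44483, 1, 59885), (1, 0, 1, 0, 0), (1, 7, 6, 0, 0), (1, 6, 1, 0, 0), (1, 5, 1, 0, 0)])
 (.leaf 10 (0) (0) [(1, 0, 1, 0, 0), (1, 1, 2, 0, 0), (42934, 1, 34945, 3, 16835), (317, 3, 272, 12, 13971), (55, 7, 82, 15, 6662), (1535, 0, 616, 7, 8932), (10745, 0, 7727, 7, 25314)]))))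
 (.node (113) (108) (-194037)
 (.leaf 8 (0) (1) [(1, 10, 125, 12, 60), (1, 7, 2, 0, 0), (113, 0, 203, 10, 25314), (1, 0, 1, 0, 0), (3075, 0, 6974, 1, 2486), (18527, 1, 8958, 5, 14918), (1, 2, 1, 0, 0)])
 (.node (272) (-111) (106834)
 (.node (12) (-25) (27510)
 (.leaf 10 (0) (0) [(317, 3, 203, 12, 25344), (6989, 0, 85868, 3, 6734), (1, 0, 5, 0, 0), (1, 1, 1, 0, 0), (55, 7, 82, 15, 6662), (7727, 6, 4312, 7, 34804), (13, 3, 18, 15, 4237)])
 (.leaf 7 (0) (0) [(1, 2, 1, 0, 0), (1, 12, 330, 15, 84), (1, 12, 30, 15, 203), (5468, 0, 94613, 1, 8255), (1, 0, 5, 0, 0), (1, 3, 1, 0, 0)]))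
 (.node (203) (265) (-314720)
 (.leaf 7 (0) (0) [(1, 2, 1, 0, 0), (1, 12, 330, 15, 84), (1, 12, 30, 15, 203), (1, 0, 1, 0, 0), (94613, 0, 27340, 1, 41275), (1, 3, 1, 0, 0)])
 (.leaf 0 (-1) (0) [(1, 1, 1, 0, 0), (1, 0, 1, 0, 0), (1, 9, 2, 0, 0), (1, 3, 1, 15, 634), (111, 1, 308, 15, 83776)]))))))))
 (.node (113) (-108) (38323)
 (.node (317) (78) (-166793)
 (.node (272) (111) (-150151)
 (.node (79) (116) (-127879)
 (.node (203) (30) (-182231)
 (.node (272) (-111) (-269600)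
 (.node (203) (265) (-357042)
 (.leaf 3 (1) (0) [(111, 1, 308, 14, 83776), (1, 1, 1, 0, 0), (1, 0, 1, 0, 0), (1, 8, 2, 0, 0), (1, 12, 78, 14, 317)])
 (.leaf 4 (0) (0) [(29, 3, 27, 15, 1144), (1, 13, 330, 14, 84), (1, 13, 30, 14, 203), (1, 0, 1, 0, 0), (94613, 0, 27340, 1, 41275), (272, 1, 317, 13, 13971)]))
 (.node (12) (-25) (-2888)
 (.leaf 4 (0) (0) [(29, 3, 27, 15, 1144), (1, 13, 330, 14, 84), (1, 13, 30, 14, 203), (5468, 0, 94613, 1, 8255), (1, 0, 5, 0, 0), (3367, 0, 42934, 3, 6989)])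
 (.leaf 11 (0) (0) [(1, 3, 2, 0, 0), (1, 0, 5, 0, 0), (1, 1, 1, 0, 0), (55, 7, 82, 14, 6662), (1535, 2, 616, 7, 8932), (10745, 2, 7727, 7, 25314), (1, 2, 1, 0, 0)])))
 (.leaf 5 (0) (0) [(1, 0, 1, 0, 0), (1, 5, 6, 0, 0), (1, 4, 1, 0, 0), (1, 3, 1, 0, 0), (79, 1, 60, 11, 2915), (21178, 0, 44483, 1, 59885)]))
 (.node (71) (-41) (-44162)
 (.node (0) (1) (-71)
 (.node (317) (-78) (-302269)
 (.leaf 4 (0) (0) [(317, 0, 113, 1, 43050), (1, 1, 330, 14, 84), (1, 1, 30, 14, 203), (79, 1, 2613, 3, 203), (42934, 0, 16835, 3, 34945), (1, 0, 1, 0, 0)])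
 (.leaf 2 (0) (0) [(1, 3, 2, 0, 0), (4479, 2, 14875, 7, 10492), (71, 1, 19033, 2, 272), (1, 1, 308, 0, 0), (1, 0, 1, 0, 0)]))
 (.node (113) (108) (-117391)
 (.leaf 4 (0) (0) [(1, 0, 1, 0, 0), (1, 13, 330, 14, 84), (1, 13, 30, 14, 203), (1, 1, 265, 14, 203), (68, 1, 10165, 4, 15), (113, 0, 317, 1, 43050)])
 (.leaf 9 (0) (-1) [(1, 13, 125, 15, 60), (1, 8, 2, 0, 0), (113, 0, 203, 13, 25314), (1, 0, 1, 0, 0), (1, 1, 308, 0, 0), (1, 2, 2, 0, 0), (1, 4, 1, 0, 0)])))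
 (.node (203) (-265) (-21161)
 (.node (272) (111) (-188217)
 (.leaf 2 (0) (0) [(1, 3, 2, 0, 0), (1, 1, 1, 0, 0), (1, 0, 1, 0, 0), (2719, 0, 3124, 2, 11968), (4479, 2, 18527, 7, 7459)])
 (.leaf 8 (0) (0) [(94613, 0, 41275, 1, 27340), (203, 1, 158, 12, 5226), (106, 1, 59, 10, 47), (265, 10, 108, 15, 8021), (1, 13, 308, 0, 0), (1, 2, 2, 0, 0), (1, 0, 1, 0, 0)]))
 (.node (12) (25) (-15199)
 (.leaf 5 (0) (0) [(44483, 1, 21178, 3, 59885), (1, 7, 6, 0, 0), (1, 6, 1, 0, 0), (1, 5, 1, 0, 0), (1, 0, 5, 0, 0), (1, 1, 1, 0, 0)])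
 (.leaf 8 (0) (0) [(1, 0, 5, 0, 0), (6989, 0, 85868, 5, 6734), (5468, 0, 30693, 4, 5435), (265, 10, 108, 15, 8021), (1, 13, 308, 0, 0), (1, 2, 2, 0, 0), (8255, 0, 94613, 1, 5468)])))))
 (.leaf 8 (0) (0) [(13971, 0, 34945, 1, 27340), (13971, 0, 85868, 1, 80642), (4657, 0, 8448, 1, 10231), (265, 6, 108, 11, 8021), (1, 9, 308, 0, 0), (136, 0, 71, 9, 19033), (1, 0, 1, 0, 0)]))
 (.node (79) (-116) (13015)
 (.leaf 8 (0) (0) [(42934, 0, 34945, 1, 16835), (1, 0, 2, 0, 0), (44483, 0, 59885, 6, 21178), (265, 6, 108, 11, 8021), (1, 9, 308, 0, 0), (317, 1, 142, 9, 37070), (14350, 1, 13973, 2, 4657)])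
 (.leaf 3 (0) (0) [(3075, 1, 2486, 2, 6974), (36, 2, 37, 11, 5611), (1, 6, 1, 0, 0), (1, 0, 2, 0, 0), (1, 1, 1, 0, 0)])))
 (.node (0) (1) (-720)
 (.node (71) (41) (-32431)
 (.leaf 10 (0) (0) [(7727, 2, 10745, 3, 25314), (7727, 2, 5442, 3, 43280), (11, 3, 25, 11, 1010), (55, 3, 111, 11, 16514), (1, 0, 2, 0, 0), (1, 1, 308, 0, 0), (1, 2, 1, 0, 0)])
 (.leaf 11 (-1) (0) [(1, 1, 232, 11, 158), (71, 0, 60, 1, 11335), (71, 0, 272, 1, 19033), (1, 0, 2, 0, 0), (41, 0, 308, 11, 21868), (41, 0, 108, 11, 12301), (1, 1, 30, 11, 203)]))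
 (.node (272) (-111) (68768)
 (.leaf 3 (0) (0) [(1, 1, 308, 0, 0), (1, 0, 1, 0, 0), (1, 6, 1, 0, 0), (27, 2, 58, 11, 2288), (113, 1, 43050, 2, 317)])
 (.leaf 11 (-1) (0) [(27, 2, 58, 11, 10820), (111, 0, 125, 11, 27340), (1, 0, 1, 0, 0), (136, 0, 71, 1, 19033), (1, 1, 308, 0, 0), (1, 1, 108, 11, 113), (1, 1, 235, 6, 1)]))))))
 (.leaf 7 (0) (0) [(79, 0, 113, 3, 21640), (1, 3, 330, 6, 84), (1, 3, 30, 6, 203), (116, 0, 265, 6, 44483), (116, 0, 125, 6, 2915), (79, 0, 317, 3, 30610)]))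
 (.node (14) (-55) (0)
 (.node (113) (108) (-23181)
 (.leaf 8 (0) (0) [(53, 2, 25, 7, 1895), (7, 1, 79, 5, 2721), (7727, 0, 10745, 1, 25314), (1, 0, 1, 0, 0), (1, 5, 308, 0, 0), (203, 2, 142, 5, 54276), (203, 2, 272, 5, 49547)])
 (.leaf 7 (0) (-1) [(1, 0, 1, 0, 0), (1, 1, 6, 0, 0), (2, 1, 29, 5, 1535), (1, 5, 265, 7, 203), (113, 0, 60, 5, 20605), (113, 0, 317, 5, 43050)]))
 (.node (203) (-30) (-32235)
 (.leaf 8 (0) (0) [(53, 2, 25, 7, 1895), (59885, 0, 88966, 2, 42356), (1, 0, 1, 0, 0), (10745, 0, 7727, 1, 25314), (1, 5, 308, 0, 0), (203, 2, 142, 5, 54276), (203, 2, 272, 5, 49547)])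
 (.leaf 4 (-1) (0) [(1, 5, 108, 7, 113), (1, 1, 6, 0, 0), (1, 0, 1, 0, 0), (1, 2, 1, 0, 0), (53, 2, 25, 7, 8255), (265, 2, 78, 7, 99839)])))))

lemma chk_theTree : chkT [(0, -1, 1582), (0, 1, 0), (-1, 0, 1244), (1, 0, 0)] theTree = true := by
  decide +kernel

/-- The fundamental rectangle is covered. -/
lemma cover_rect (x y : ℝ) (hx0 : 0 ≤ x) (hx1 : x ≤ 1244) (hy0 : 0 ≤ y) (hy1 : y ≤ 1582) :
    ∃ i : Fin 12, ∃ m n : ℤ, InPoly i (x - 1244 * m) (y - 1582 * n) := by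
  refine chkT_sound x y theTree _ ?_ chk_theTree
  intro h hh
  rcases List.mem_cons.1 hh with rfl | hh
  · norm_num [ev]; linarith
  rcases List.mem_cons.1 hh with rfl | hh
  · norm_num [ev]; linarith
  rcases List.mem_cons.1 hh with rfl | hh
  · norm_num [ev]; linarith
  rcases List.mem_cons.1 hh with rfl | hh
  · norm_num [ev]; linarith
  cases hh

/-- Every point of the plane lies in a cell. -/
lemma cover_plane (x : E) : ∃ i : Fin 12, ∃ m n : ℤ, x ∈ cell i m n := by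
  set a : ℤ := ⌊500 * x 0 / 1244⌋ with ha
  set b : ℤ := ⌊500 * x 1 / 1582⌋ with hb
  have ha1 : (a : ℝ) ≤ 500 * x 0 / 1244 := Int.floor_le _
  have ha2 : 500 * x 0 / 1244 < a + 1 := Int.lt_floor_add_one _
  have hb1 : (b : ℝ) ≤ 500 * x 1 / 1582 := Int.floor_le _
  have hb2 : 500 * x 1 / 1582 < b + 1 := Int.lt_floor_add_one _
  rw [le_div_iff₀ (by norm_num)] at ha1 hb1
  rw [div_lt_iff₀ (by norm_num)] at ha2 hb2
  obtain ⟨i, m, n, h⟩ := cover_rect (500 * x 0 - 1244 * a) (500 * x 1 - 1582 * b)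
    (by linarith) (by linarith) (by linarith) (by linarith)
  refine ⟨i, a + m, b + n, poly_mem ?_ ?_ h⟩
  · push_cast; ring
  · push_cast; ring

lemma cell_compact (i : Fin 12) (m n : ℤ) : IsCompact (cell i m n) := by
  apply Set.Finite.isCompact_convexHull
  apply Set.Finite.image
  exact (V i).finite_toSet

lemma dist_check : ∀ i : Fin 12, ∀ v ∈ V i, ∀ w ∈ V i, (v.1 - w.1) ^ 2 + (v.2 - w.2) ^ 2 ≤ 250000 := by
  decide

lemma cell_diam (i : Fin 12) (m n : ℤ) : Metric.diam (cell i m n) ≤ 1 := by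
  unfold cell
  rw [convexHull_diam]
  apply Metric.diam_le_of_forall_dist_le zero_le_one
  rintro _ ⟨v, hv, rfl⟩ _ ⟨w, hw, rfl⟩
  have h := dist_check i v hv w hw
  have h' : ((v.1 : ℝ) - w.1) ^ 2 + ((v.2 : ℝ) - w.2) ^ 2 ≤ 250000 := by exact_mod_cast h
  rw [dist_eq_norm]
  apply (sq_le_one_iff₀ (norm_nonneg _)).1
  rw [norm_sq_eq]
  simp only [PiLp.sub_apply, emb]
  simp
  nlinarith

lemma det_check : ∀ i : Fin 12, ∃ u ∈ V i, ∃ v ∈ V i, ∃ w ∈ V i,
    0 < (v.1 - u.1) * (w.2 - u.2) - (v.2 - u.2) * (w.1 - u.1) := by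
  decide

lemma crs_bary (u v : ℤ × ℤ) (a b c d e f : ℝ) (h0 : crs u v a b = 0) (h1 : crs u v c d = 0)
    (h2 : 0 < crs u v e f) : 0 < crs u v ((a + c + e) / 3) ((b + d + f) / 3) := by
  have : crs u v ((a + c + e) / 3) ((b + d + f) / 3) =
      (crs u v a b + crs u v c d + crs u v e f) / 3 := by
    unfold crs; ring
  rw [this, h0, h1]
  linarith

lemma emb_bary (m n : ℤ) (u v w : ℤ × ℤ) :
    500 * ((1 / 3 : ℝ) • (emb m n u + emb m n v + emb m n w)) 0 - 1244 * m =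
      ((u.1 : ℝ) + v.1 + w.1) / 3 ∧
    500 * ((1 / 3 : ℝ) • (emb m n u + emb m n v + emb m n w)) 1 - 1582 * n =
      ((u.2 : ℝ) + v.2 + w.2) / 3 := by
  simp only [PiLp.smul_apply, PiLp.add_apply, emb, smul_eq_mul]
  constructor
  · change 500 * (1 / 3 * (((u.1 : ℝ) + 1244 * m) / 500 + ((v.1 : ℝ) + 1244 * m) / 500 +
      ((w.1 : ℝ) + 1244 * m) / 500)) - 1244 * m = _
    ring
  · change 500 * (1 / 3 * (((u.2 : ℝ) + 1582 * n) / 500 + ((v.2 : ℝ) + 1582 * n) / 500 +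
      ((w.2 : ℝ) + 1582 * n) / 500)) - 1582 * n = _
    ring

lemma cell_interior (i : Fin 12) (m n : ℤ) : (interior (cell i m n)).Nonempty := by
  obtain ⟨u, hu, v, hv, w, hw, h⟩ := det_check i
  have h' : 0 < crs u v w.1 w.2 := by
    rw [← crz_cast]
    exact Int.cast_pos.2 h
  let O : Set E := {x | 0 < crs u v (500 * x 0 - 1244 * m) (500 * x 1 - 1582 * n) ∧
    0 < crs v w (500 * x 0 - 1244 * m) (500 * x 1 - 1582 * n) ∧
    0 < crs w u (500 * x 0 - 1244 * m) (500 * x 1 - 1582 * n)}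
  have hO : IsOpen O := by
    have hc : ∀ a b : ℤ × ℤ, Continuous fun x : E => crs a b (500 * x 0 - 1244 * m) (500 * x 1 - 1582 * n) := by
      intro a b
      unfold crs
      fun_prop
    exact (isOpen_lt continuous_const (hc u v)).inter
      ((isOpen_lt continuous_const (hc v w)).inter (isOpen_lt continuous_const (hc w u)))
  have hsub : O ⊆ cell i m n := by
    rintro x ⟨h1, h2, h3⟩
    exact tri_mem rfl rfl u v w hu hv hw h' h1.le h2.le h3.le
  refine ⟨(1 / 3 : ℝ) • (emb m n u + emb m n v + emb m n w), interior_maximal hsub hO ?_⟩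
  obtain ⟨e1, e2⟩ := emb_bary m n u v w
  have z1 : ∀ a b : ℤ × ℤ, crs a b a.1 a.2 = 0 := by intro a b; unfold crs; ring
  have z2 : ∀ a b : ℤ × ℤ, crs a b b.1 b.2 = 0 := by intro a b; unfold crs; ring
  have c1 : crs v w u.1 u.2 = crs u v w.1 w.2 := by unfold crs; ring
  have c2 : crs w u v.1 v.2 = crs u v w.1 w.2 := by unfold crs; ring
  refine ⟨?_, ?_, ?_⟩
  · rw [e1, e2]
    exact crs_bary u v _ _ _ _ _ _ (z1 u v) (z2 u v) h'
  · rw [e1, e2]
    rw [show (u.1 : ℝ) + v.1 + w.1 = v.1 + w.1 + u.1 by ring,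
      show (u.2 : ℝ) + v.2 + w.2 = v.2 + w.2 + u.2 by ring]
    exact crs_bary v w _ _ _ _ _ _ (z1 v w) (z2 v w) (by rw [c1]; exact h')
  · rw [e1, e2]
    rw [show (u.1 : ℝ) + v.1 + w.1 = w.1 + u.1 + v.1 by ring,
      show (u.2 : ℝ) + v.2 + w.2 = w.2 + u.2 + v.2 by ring]
    exact crs_bary w u _ _ _ _ _ _ (z1 w u) (z2 w u) (by rw [c2]; exact h')

end Pool.Agent.Work.MP_9ad55e_co
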